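import Mathlib

/-!
# Nonvanishing of a linear combination of partial sums, by a congruence modulo a prime
-/

set_option autoImplicit false

namespace Pool.Agent.W2helper67.DZ

open Finset

/-- only the term `n = p` has a denominator divisible by `p` -/
theorem key_dvd (p : ℕ) [hp : Fact p.Prime] (T : Finset ℕ) (hT : ∀ t ∈ T, 1 ≤ t) (g : ℕ → ℤ)
    (m : ℕ) (hm1 : p < m) (hm2 : m < 2 * p)
    (h0 : ∑ t ∈ T, (g t : ℚ) * (p : ℚ) ^ t * ∑ n ∈ Finset.Ico 1 m, ((m : ℚ) / n) ^ t = 0) :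
    (p : ℤ) ∣ ∑ t ∈ T, g t * (m : ℤ) ^ t := by
  have hp0 : (p : ℚ) ≠ 0 := by exact_mod_cast hp.1.ne_zero
  have hmem : p ∈ Finset.Ico 1 m := Finset.mem_Ico.2 ⟨hp.1.one_le, hm1⟩
  set R : ℚ := ∑ t ∈ T, ∑ n ∈ (Finset.Ico 1 m).erase p, (g t : ℚ) * (p : ℚ) ^ t * ((m : ℚ) / n) ^ t with hR
  have hsplit : ((∑ t ∈ T, g t * (m : ℤ) ^ t : ℤ) : ℚ) = -R := by
    have h1 : ∑ t ∈ T, (g t : ℚ) * (p : ℚ) ^ t * ∑ n ∈ Finset.Ico 1 m, ((m : ℚ) / n) ^ t =
        ((∑ t ∈ T, g t * (m : ℤ) ^ t : ℤ) : ℚ) + R := by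
      rw [hR]
      push_cast
      rw [← Finset.sum_add_distrib]
      refine Finset.sum_congr rfl fun t _ => ?_
      rw [← Finset.add_sum_erase _ _ hmem, mul_add, Finset.mul_sum, div_pow]
      congr 1
      field_simp
    rw [h1] at h0
    linarith
  have hRn : padicNorm p R ≤ (p : ℚ) ^ (-(1 : ℕ) : ℤ) := by
    have hnn : (0 : ℚ) ≤ (p : ℚ) ^ (-(1 : ℕ) : ℤ) := by positivity
    rw [hR]
    refine padicNorm.sum_le' (fun t ht => padicNorm.sum_le' (fun n hn => ?_) hnn) hnn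
    obtain ⟨hn1, hn2⟩ := Finset.mem_erase.1 hn
    rw [Finset.mem_Ico] at hn2
    have hpn : ¬ p ∣ n := by
      rintro ⟨a, rfl⟩
      rcases Nat.lt_or_ge a 2 with ha | ha
      · interval_cases a
        · omega
        · exact hn1 (by ring)
      · have : p * 2 ≤ p * a := Nat.mul_le_mul_left _ ha
        omega
    have hn1' : padicNorm p (n : ℚ) = 1 := (padicNorm.nat_eq_one_iff n).2 hpn
    have hpow : ∀ (x : ℚ) (j : ℕ), padicNorm p (x ^ j) = padicNorm p x ^ j := by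
      intro x j
      induction j with
      | zero => simp
      | succ j ih => rw [pow_succ, pow_succ, padicNorm.mul, ih]
    rw [padicNorm.mul, padicNorm.mul, hpow, hpow, padicNorm.div, hn1', div_one, padicNorm.padicNorm_p_of_prime]
    have h1 : padicNorm p (g t : ℚ) ≤ 1 := padicNorm.of_int _
    have h2 : padicNorm p (m : ℚ) ≤ 1 := padicNorm.of_nat _
    have h2' : padicNorm p (m : ℚ) ^ t ≤ 1 := pow_le_one₀ (padicNorm.nonneg _) h2
    have hpinv : (p : ℚ)⁻¹ ≤ 1 := inv_le_one_of_one_le₀ (by exact_mod_cast hp.1.one_le)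
    have hpinv0 : (0 : ℚ) ≤ (p : ℚ)⁻¹ := by positivity
    have h3 : ((p : ℚ)⁻¹) ^ t ≤ (p : ℚ)⁻¹ := by
      calc ((p : ℚ)⁻¹) ^ t ≤ ((p : ℚ)⁻¹) ^ 1 := pow_le_pow_of_le_one hpinv0 hpinv (hT t ht)
        _ = _ := pow_one _
    have h4 : (p : ℚ) ^ (-(1 : ℕ) : ℤ) = (p : ℚ)⁻¹ := by
      rw [zpow_neg, Nat.cast_one, zpow_one]
    rw [h4]
    calc padicNorm p (g t : ℚ) * ((p : ℚ)⁻¹) ^ t * padicNorm p (m : ℚ) ^ t
        ≤ 1 * (p : ℚ)⁻¹ * 1 := by
          apply mul_le_mul (mul_le_mul h1 h3 (by positivity) zero_le_one) h2'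
            (pow_nonneg (padicNorm.nonneg _) _) (by positivity)
      _ = (p : ℚ)⁻¹ := by ring
  have h5 : padicNorm p ((∑ t ∈ T, g t * (m : ℤ) ^ t : ℤ) : ℚ) ≤ (p : ℚ) ^ (-(1 : ℕ) : ℤ) := by
    rw [hsplit, padicNorm.neg]
    exact hRn
  have h6 := (padicNorm.dvd_iff_norm_le (p := p) (n := 1) (z := ∑ t ∈ T, g t * (m : ℤ) ^ t)).2 h5
  simpa using h6

/-- a sparse polynomial vanishing at all nonzero residues vanishes -/
theorem poly_zero (p : ℕ) [hp : Fact p.Prime] (T : Finset ℕ)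
    (hinc : ∀ s ∈ T, ∀ t ∈ T, s % (p - 1) = t % (p - 1) → s = t) (g : ℕ → ℤ)
    (h : ∀ m : ℕ, p < m → m < 2 * p → (p : ℤ) ∣ ∑ t ∈ T, g t * (m : ℤ) ^ t) :
    ∀ t ∈ T, (p : ℤ) ∣ g t := by
  classical
  have hp2 : 2 ≤ p := hp.1.two_le
  set P : Polynomial (ZMod p) := ∑ t ∈ T, Polynomial.monomial (t % (p - 1)) (g t : ZMod p) with hP
  have hPz : P = 0 := by
    apply Polynomial.eq_zero_of_natDegree_lt_card_of_eval_eq_zero' P
      ((Finset.univ : Finset (ZMod p)).erase 0)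
    · intro x hx
      have hx0 : x ≠ 0 := (Finset.mem_erase.1 hx).1
      have hv : 0 < x.val := Nat.pos_of_ne_zero (by
        intro h0
        exact hx0 ((ZMod.val_eq_zero x).1 h0))
      have hv2 : x.val < p := ZMod.val_lt x
      have h1 := h (p + x.val) (by omega) (by omega)
      have h2 : ((∑ t ∈ T, g t * ((p + x.val : ℕ) : ℤ) ^ t : ℤ) : ZMod p) = 0 :=
        (ZMod.intCast_zmod_eq_zero_iff_dvd _ _).2 h1
      have h3 : (((p + x.val : ℕ) : ℤ) : ZMod p) = x := by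
        push_cast
        simp
      rw [hP, Polynomial.eval_finset_sum]
      rw [← h2]
      push_cast
      refine Finset.sum_congr rfl fun t _ => ?_
      rw [Polynomial.eval_monomial]
      have h4 : ((p : ZMod p) + (x.val : ZMod p)) = x := by simp
      rw [h4]
      congr 1
      have h5 : x ^ (p - 1) = 1 := ZMod.pow_card_sub_one_eq_one hx0
      conv_rhs => rw [← Nat.div_add_mod t (p - 1), pow_add, pow_mul, h5, one_pow, one_mul]
    · rw [Finset.card_erase_of_mem (Finset.mem_univ _), Finset.card_univ, ZMod.card]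
      have : P.natDegree ≤ p - 2 := by
        rw [hP]
        refine Polynomial.natDegree_sum_le_of_forall_le _ _ fun t _ => ?_
        refine (Polynomial.natDegree_monomial_le _).trans ?_
        have := Nat.mod_lt t (show 0 < p - 1 by omega)
        omega
      omega
  intro t ht
  have h1 : P.coeff (t % (p - 1)) = (g t : ZMod p) := by
    rw [hP, Polynomial.finset_sum_coeff, Finset.sum_eq_single t]
    · rw [Polynomial.coeff_monomial, if_pos rfl]
    · intro s hs hst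
      rw [Polynomial.coeff_monomial, if_neg]
      intro h2
      exact hst (hinc s hs t ht h2)
    · intro h2
      exact absurd ht h2
  rw [hPz, Polynomial.coeff_zero] at h1
  exact (ZMod.intCast_zmod_eq_zero_iff_dvd _ _).1 h1.symm

/-- **Nonvanishing.** One of the sums with `p < m < 2 p` is not zero. -/
theorem exists_ne (p : ℕ) [hp : Fact p.Prime] (T : Finset ℕ) (hT : ∀ t ∈ T, 1 ≤ t)
    (hinc : ∀ s ∈ T, ∀ t ∈ T, s % (p - 1) = t % (p - 1) → s = t) (c : ℕ → ℤ)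
    (hc : ∃ t ∈ T, c t ≠ 0) :
    ∃ m : ℕ, p < m ∧ m < 2 * p ∧
      ∑ t ∈ T, (c t : ℚ) * ∑ n ∈ Finset.Ico 1 m, ((m : ℚ) / n) ^ t ≠ 0 := by
  classical
  by_contra hcon
  push Not at hcon
  have hp0 : (p : ℚ) ≠ 0 := by exact_mod_cast hp.1.ne_zero
  have hpz : (p : ℤ) ≠ 0 := by exact_mod_cast hp.1.ne_zero
  obtain ⟨t0, ht0, hct0⟩ := hc
  set B : ℕ := T.sup id with hB
  have hTB : ∀ t ∈ T, t ≤ B := fun t ht => Finset.le_sup (f := id) ht
  set c' : ℕ → ℤ := fun t => c t * (p : ℤ) ^ (B - t) with hc'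
  obtain ⟨g, hg1, hg2⟩ := Finset.extract_gcd c' ⟨t0, ht0⟩
  have hG : T.gcd c' ≠ 0 := by
    intro h0
    have := (Finset.gcd_eq_zero_iff.1 h0) t0 ht0
    rw [hc'] at this
    simp only [mul_eq_zero] at this
    rcases this with h | h
    · exact hct0 h
    · exact pow_ne_zero _ hpz h
  have hGq : ((T.gcd c' : ℤ) : ℚ) ≠ 0 := by exact_mod_cast hG
  have hdvd : ∀ m : ℕ, p < m → m < 2 * p → (p : ℤ) ∣ ∑ t ∈ T, g t * (m : ℤ) ^ t := by
    intro m hm1 hm2
    apply key_dvd p T hT g m hm1 hm2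
    have h1 := hcon m hm1 hm2
    have h2 : ((T.gcd c' : ℤ) : ℚ) * ∑ t ∈ T, (g t : ℚ) * (p : ℚ) ^ t * ∑ n ∈ Finset.Ico 1 m, ((m : ℚ) / n) ^ t =
        (p : ℚ) ^ B * ∑ t ∈ T, (c t : ℚ) * ∑ n ∈ Finset.Ico 1 m, ((m : ℚ) / n) ^ t := by
      rw [Finset.mul_sum, Finset.mul_sum]
      refine Finset.sum_congr rfl fun t ht => ?_
      have h3 : ((T.gcd c' : ℤ) : ℚ) * (g t : ℚ) = (c t : ℚ) * (p : ℚ) ^ (B - t) := by
        have := hg1 t ht
        rw [hc'] at this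
        have h4 : ((T.gcd c' * g t : ℤ) : ℚ) = ((c t * (p : ℤ) ^ (B - t) : ℤ) : ℚ) := by
          rw [hc']
          exact_mod_cast this.symm
        push_cast at h4
        exact_mod_cast h4
      have h5 : (p : ℚ) ^ B = (p : ℚ) ^ (B - t) * (p : ℚ) ^ t := by
        rw [← pow_add, Nat.sub_add_cancel (hTB t ht)]
      rw [h5]
      calc ((T.gcd c' : ℤ) : ℚ) * ((g t : ℚ) * (p : ℚ) ^ t * ∑ n ∈ Finset.Ico 1 m, ((m : ℚ) / n) ^ t)
          = (((T.gcd c' : ℤ) : ℚ) * (g t : ℚ)) * (p : ℚ) ^ t * ∑ n ∈ Finset.Ico 1 m, ((m : ℚ) / n) ^ t := by ring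
        _ = _ := by rw [h3]; ring
    rw [h1, mul_zero] at h2
    exact (mul_eq_zero.1 h2).resolve_left hGq
  have hall := poly_zero p T hinc g hdvd
  have h7 : (p : ℤ) ∣ T.gcd g := Finset.dvd_gcd hall
  rw [hg2] at h7
  exact (Nat.prime_iff_prime_int.1 hp.1).not_unit (isUnit_of_dvd_one h7)

end Pool.Agent.W2helper67.DZ
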