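import Mathlib
import Pool.Agent.W2helper67.DZ.A

/-!
# The linear form as a series, and the domination by its first nonzero term
-/

set_option autoImplicit false

namespace Pool.Agent.W2helper67.DZ

open Finset

/-- the coefficient of `m ^ (-k)` -/
noncomputable def gR (d : ℤ) (T : Finset ℕ) (c : ℕ → ℤ) (m : ℕ) : ℝ :=
  d + ∑ t ∈ T, (c t : ℝ) * ∑ n ∈ Finset.Ico 1 m, ((m : ℝ) / n) ^ t

/-- double zeta values -/
noncomputable def dz (p q : ℕ) : ℝ :=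
  ∑' m : ℕ, (∑ n ∈ Finset.Ico 1 (m + 1), 1 / (n : ℝ) ^ q) / ((m + 1 : ℕ) : ℝ) ^ p

/-- zeta values -/
noncomputable def zt (k : ℕ) : ℝ := ∑' m : ℕ, 1 / ((m + 1 : ℕ) : ℝ) ^ k

theorem summable_zt (k : ℕ) (hk : 2 ≤ k) : Summable fun m : ℕ => 1 / ((m + 1 : ℕ) : ℝ) ^ k := by
  have h := (Real.summable_one_div_nat_pow (p := k)).2 (by omega)
  exact (summable_nat_add_iff 1).2 h

theorem inner_le (t m : ℕ) : ∑ n ∈ Finset.Ico 1 (m + 1), 1 / (n : ℝ) ^ t ≤ (m : ℝ) := by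
  calc ∑ n ∈ Finset.Ico 1 (m + 1), 1 / (n : ℝ) ^ t ≤ ∑ n ∈ Finset.Ico 1 (m + 1), (1 : ℝ) := by
        refine Finset.sum_le_sum fun n hn => ?_
        have hn1 : (1 : ℝ) ≤ n := by exact_mod_cast (Finset.mem_Ico.1 hn).1
        rw [div_le_one (by positivity)]
        exact one_le_pow₀ hn1
    _ = (m : ℝ) := by simp

theorem summable_dz (p q : ℕ) (hp : 3 ≤ p) :
    Summable fun m : ℕ => (∑ n ∈ Finset.Ico 1 (m + 1), 1 / (n : ℝ) ^ q) / ((m + 1 : ℕ) : ℝ) ^ p := by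
  refine Summable.of_nonneg_of_le (fun m => ?_) (fun m => ?_) (summable_zt (p - 1) (by omega))
  · exact div_nonneg (Finset.sum_nonneg fun n _ => by positivity) (by positivity)
  · have hm : (0 : ℝ) < ((m + 1 : ℕ) : ℝ) := by positivity
    rw [div_le_div_iff₀ (by positivity) (by positivity), one_mul]
    have h1 := inner_le q m
    have h2 : (m : ℝ) ≤ ((m + 1 : ℕ) : ℝ) := by push_cast; linarith
    calc (∑ n ∈ Finset.Ico 1 (m + 1), 1 / (n : ℝ) ^ q) * ((m + 1 : ℕ) : ℝ) ^ (p - 1)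
        ≤ ((m + 1 : ℕ) : ℝ) * ((m + 1 : ℕ) : ℝ) ^ (p - 1) :=
          mul_le_mul_of_nonneg_right (h1.trans h2) (by positivity)
      _ = ((m + 1 : ℕ) : ℝ) ^ p := by
          rw [← pow_succ']
          congr 1
          omega

/-- the linear form is the series of the `gR (m + 1) / (m + 1) ^ k` -/
theorem form_eq (k : ℕ) (d : ℤ) (T : Finset ℕ) (c : ℕ → ℤ) (hk : 3 ≤ k) (hT : ∀ t ∈ T, t + 3 ≤ k) :
    HasSum (fun m : ℕ => gR d T c (m + 1) / ((m + 1 : ℕ) : ℝ) ^ k)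
      ((d : ℝ) * zt k + ∑ t ∈ T, (c t : ℝ) * dz (k - t) t) := by
  have h1 : HasSum (fun m : ℕ => (d : ℝ) * (1 / ((m + 1 : ℕ) : ℝ) ^ k)) ((d : ℝ) * zt k) :=
    (summable_zt k (by omega)).hasSum.mul_left _
  have h2 : HasSum (fun m : ℕ => ∑ t ∈ T, (c t : ℝ) *
      ((∑ n ∈ Finset.Ico 1 (m + 1), 1 / (n : ℝ) ^ t) / ((m + 1 : ℕ) : ℝ) ^ (k - t)))
      (∑ t ∈ T, (c t : ℝ) * dz (k - t) t) := by
    apply hasSum_sum
    intro t ht
    exact (summable_dz (k - t) t (by have := hT t ht; omega)).hasSum.mul_left _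
  convert h1.add h2 using 1
  funext m
  have hm : (0 : ℝ) < ((m + 1 : ℕ) : ℝ) := by positivity
  rw [gR, add_div, Finset.sum_div]
  congr 1
  · ring
  · refine Finset.sum_congr rfl fun t ht => ?_
    rw [mul_div_assoc, Finset.sum_div, Finset.sum_div]
    congr 1
    refine Finset.sum_congr rfl fun n hn => ?_
    have hn0 : (0 : ℝ) < n := by exact_mod_cast (Finset.mem_Ico.1 hn).1
    have hk' : k = (k - t) + t := by have := hT t ht; omega
    conv_lhs => rw [hk', pow_add]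
    rw [div_pow]
    field_simp

theorem gR_le (d : ℤ) (T : Finset ℕ) (c : ℕ → ℤ) (H : ℝ) (B : ℕ) (hH : 0 ≤ H) (hd : |(d : ℝ)| ≤ H)
    (hc : ∀ t ∈ T, |(c t : ℝ)| ≤ H) (hTB : ∀ t ∈ T, t ≤ B) (m : ℕ) (hm : 1 ≤ m) :
    |gR d T c m| ≤ H * (T.card + 1) * (m : ℝ) ^ (B + 1) := by
  have hm1 : (1 : ℝ) ≤ m := by exact_mod_cast hm
  have hP1 : (1 : ℝ) ≤ (m : ℝ) ^ (B + 1) := one_le_pow₀ hm1
  have h1 : |∑ t ∈ T, (c t : ℝ) * ∑ n ∈ Finset.Ico 1 m, ((m : ℝ) / n) ^ t| ≤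
      ∑ t ∈ T, H * (m : ℝ) ^ (B + 1) := by
    refine (Finset.abs_sum_le_sum_abs _ _).trans (Finset.sum_le_sum fun t ht => ?_)
    rw [abs_mul]
    refine mul_le_mul (hc t ht) ?_ (abs_nonneg _) hH
    rw [abs_of_nonneg (Finset.sum_nonneg fun n _ => by positivity)]
    calc ∑ n ∈ Finset.Ico 1 m, ((m : ℝ) / n) ^ t ≤ ∑ n ∈ Finset.Ico 1 m, (m : ℝ) ^ B := by
          refine Finset.sum_le_sum fun n hn => ?_
          have hn1 : (1 : ℝ) ≤ n := by exact_mod_cast (Finset.mem_Ico.1 hn).1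
          calc ((m : ℝ) / n) ^ t ≤ (m : ℝ) ^ t := by
                apply pow_le_pow_left₀ (by positivity)
                exact div_le_self (by positivity) hn1
            _ ≤ (m : ℝ) ^ B := pow_le_pow_right₀ hm1 (hTB t ht)
      _ = ((m - 1 : ℕ) : ℝ) * (m : ℝ) ^ B := by
          rw [Finset.sum_const, Nat.card_Ico, nsmul_eq_mul]
      _ ≤ (m : ℝ) * (m : ℝ) ^ B := by
          apply mul_le_mul_of_nonneg_right _ (by positivity)
          exact_mod_cast Nat.sub_le m 1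
      _ = (m : ℝ) ^ (B + 1) := by rw [pow_succ]; ring
  rw [Finset.sum_const, nsmul_eq_mul] at h1
  calc |gR d T c m| ≤ |(d : ℝ)| + |∑ t ∈ T, (c t : ℝ) * ∑ n ∈ Finset.Ico 1 m, ((m : ℝ) / n) ^ t| :=
        abs_add_le _ _
    _ ≤ H * (m : ℝ) ^ (B + 1) + T.card * (H * (m : ℝ) ^ (B + 1)) := by
        refine add_le_add (hd.trans ?_) h1
        nlinarith
    _ = _ := by ring

theorem gR_ge (d : ℤ) (T : Finset ℕ) (c : ℕ → ℤ) (B : ℕ) (hTB : ∀ t ∈ T, t ≤ B) (m : ℕ)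
    (h0 : gR d T c m ≠ 0) :
    1 ≤ |gR d T c m| * (Nat.lcmUpto (m - 1) : ℝ) ^ B := by
  set L : ℕ := Nat.lcmUpto (m - 1) with hL
  have hLpos : 0 < L := Nat.lcmUpto_pos _
  have hint : ∃ z : ℤ, gR d T c m * (L : ℝ) ^ B = z := by
    have h1 : ∀ t ∈ T, ∀ n ∈ Finset.Ico 1 m, ∃ z : ℤ, ((m : ℝ) / n) ^ t * (L : ℝ) ^ B = z := by
      intro t ht n hn
      obtain ⟨hn1, hn2⟩ := Finset.mem_Ico.1 hn
      have hdvd : n ∣ L := by
        have : id n ∣ (Finset.Icc 1 (m - 1)).lcm id :=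
          Finset.dvd_lcm (Finset.mem_Icc.2 ⟨hn1, by omega⟩)
        exact this
      obtain ⟨a, ha⟩ := hdvd
      refine ⟨(m : ℤ) ^ t * (a : ℤ) ^ t * (L : ℤ) ^ (B - t), ?_⟩
      have hn0 : (n : ℝ) ≠ 0 := by positivity
      have hB : (L : ℝ) ^ B = (L : ℝ) ^ t * (L : ℝ) ^ (B - t) := by
        rw [← pow_add, Nat.add_sub_cancel' (hTB t ht)]
      have hLr : (L : ℝ) = n * a := by exact_mod_cast ha
      rw [hB]
      push_cast
      rw [← mul_assoc]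
      congr 1
      rw [hLr, div_pow, mul_pow]
      field_simp
    have h2 : ∀ t ∈ T, ∃ z : ℤ, (∑ n ∈ Finset.Ico 1 m, ((m : ℝ) / n) ^ t) * (L : ℝ) ^ B = z := by
      intro t ht
      choose! f hf using h1 t ht
      refine ⟨∑ n ∈ Finset.Ico 1 m, f n, ?_⟩
      rw [Finset.sum_mul]
      push_cast
      exact Finset.sum_congr rfl fun n hn => hf n hn
    choose! f hf using h2
    refine ⟨d * (L : ℤ) ^ B + ∑ t ∈ T, c t * f t, ?_⟩
    rw [gR, add_mul, Finset.sum_mul]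
    push_cast
    congr 1
    refine Finset.sum_congr rfl fun t ht => ?_
    rw [mul_assoc, hf t ht]
  obtain ⟨z, hz⟩ := hint
  have hLB : (0 : ℝ) < (L : ℝ) ^ B := by positivity
  have hz0 : z ≠ 0 := by
    intro h
    rw [h, Int.cast_zero] at hz
    exact (mul_ne_zero h0 hLB.ne') hz
  have h3 : |gR d T c m| * (L : ℝ) ^ B = |(z : ℝ)| := by
    rw [← hz, abs_mul, abs_of_pos hLB]
  rw [h3]
  exact_mod_cast Int.one_le_abs hz0

theorem lcm_le (n : ℕ) : (Nat.lcmUpto n : ℝ) ≤ Real.exp (6 * n) := by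
  have h1 := Chebyshev.psi_eq_log_lcmUpto n
  have h2 := Chebyshev.psi_le_const_mul_self (x := (n : ℝ)) (Nat.cast_nonneg n)
  have h3 : (0 : ℝ) < Nat.lcmUpto n := by exact_mod_cast Nat.lcmUpto_pos n
  have h4 : Real.log 4 ≤ 2 := by
    rw [Real.log_le_iff_le_exp (by norm_num)]
    have := Real.add_one_le_exp (1 : ℝ)
    have h5 : Real.exp 2 = Real.exp 1 * Real.exp 1 := by rw [← Real.exp_add]; norm_num
    rw [h5]
    nlinarith
  rw [← Real.log_le_iff_le_exp h3, ← h1]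
  refine h2.trans ?_
  have : (0 : ℝ) ≤ n := Nat.cast_nonneg n
  nlinarith

/-- the sum of `1 / (i + 2) ^ 2` is at most `1` -/
theorem tail_two (M : ℕ) :
    Summable (fun i : ℕ => 1 / ((i + M : ℕ) : ℝ) ^ 2) ∧ ∑' i : ℕ, 1 / ((i + M : ℕ) : ℝ) ^ 2 ≤ 2 := by
  have h := (Real.summable_one_div_nat_pow (p := 2)).2 (by omega)
  refine ⟨(summable_nat_add_iff M).2 h, ?_⟩
  have h1 := h.sum_add_tsum_nat_add M
  have h2 : ∑' n : ℕ, 1 / (n : ℝ) ^ 2 = Real.pi ^ 2 / 6 := hasSum_zeta_two.tsum_eq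
  have h3 : 0 ≤ ∑ i ∈ Finset.range M, 1 / (i : ℝ) ^ 2 := Finset.sum_nonneg fun i _ => by positivity
  have h4 : Real.pi ^ 2 / 6 ≤ 2 := by
    have := Real.pi_lt_d2
    have := Real.pi_pos
    nlinarith
  rw [h2] at h1
  linarith

/-- domination by the first nonzero term -/
theorem main_bound (k : ℕ) (d : ℤ) (T : Finset ℕ) (c : ℕ → ℤ) (H : ℝ) (B M : ℕ) (hH : 1 ≤ H)
    (hd : |(d : ℝ)| ≤ H) (hc : ∀ t ∈ T, |(c t : ℝ)| ≤ H) (hTB : ∀ t ∈ T, t ≤ B)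
    (m1 : ℕ) (hm1 : 1 ≤ m1) (hm1M : m1 + 1 ≤ M) (hne : gR d T c m1 ≠ 0) (hkB : B + 3 ≤ k)
    (hcond : Real.log (4 * H * (T.card + 1)) + (B + 3) * Real.log M + 6 * M * B ≤ k / M) :
    ((M : ℝ) ^ k)⁻¹ ≤ |(d : ℝ) * zt k + ∑ t ∈ T, (c t : ℝ) * dz (k - t) t| := by
  classical
  -- the first nonzero term
  have hex : ∃ m : ℕ, 1 ≤ m ∧ gR d T c m ≠ 0 := ⟨m1, hm1, hne⟩
  set m0 := Nat.find hex with hm0def
  obtain ⟨hm01, hm0ne⟩ := Nat.find_spec hex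
  have hm0min : ∀ m, 1 ≤ m → m < m0 → gR d T c m = 0 := by
    intro m h1 h2
    by_contra h3
    exact Nat.find_min hex h2 ⟨h1, h3⟩
  have hm0M : m0 + 1 ≤ M := (Nat.succ_le_succ (Nat.find_min' hex ⟨hm1, hne⟩)).trans hm1M
  have hform := form_eq k d T c (by omega) (fun t ht => by have := hTB t ht; omega)
  set F : ℝ := (d : ℝ) * zt k + ∑ t ∈ T, (c t : ℝ) * dz (k - t) t with hF
  set f : ℕ → ℝ := fun m => gR d T c (m + 1) / ((m + 1 : ℕ) : ℝ) ^ k with hf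
  have hsum : Summable f := hform.summable
  have hFeq : F = ∑ i ∈ Finset.range m0, f i + ∑' i : ℕ, f (i + m0) := by
    rw [hsum.sum_add_tsum_nat_add m0, hform.tsum_eq]
  have hfirst : ∑ i ∈ Finset.range m0, f i = f (m0 - 1) := by
    apply Finset.sum_eq_single (m0 - 1)
    · intro i hi hne'
      have hi' := Finset.mem_range.1 hi
      rw [hf]
      simp only
      rw [hm0min (i + 1) (by omega) (by omega), zero_div]
    · intro h
      exact absurd (Finset.mem_range.2 (by omega)) h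
  have hm0pos : (0 : ℝ) < m0 := by exact_mod_cast hm01
  have hQ : (1 : ℝ) ≤ ((m0 + 1 : ℕ) : ℝ) := by exact_mod_cast Nat.le_add_left 1 m0
  have hHN : 0 < H * ((T.card : ℝ) + 1) := by positivity
  -- tail
  have htail : |∑' i : ℕ, f (i + m0)| ≤ 2 * (H * (T.card + 1)) * ((m0 + 1 : ℕ) : ℝ) ^ (B + 3) / ((m0 + 1 : ℕ) : ℝ) ^ k := by
    obtain ⟨hs2, ht2⟩ := tail_two (m0 + 1)
    have hterm : ∀ i : ℕ, |f (i + m0)| ≤ (H * (T.card + 1)) * ((m0 + 1 : ℕ) : ℝ) ^ (B + 3) / ((m0 + 1 : ℕ) : ℝ) ^ k *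
        (1 / ((i + (m0 + 1) : ℕ) : ℝ) ^ 2) := by
      intro i
      have h1 := gR_le d T c H B (by linarith) hd hc hTB (i + m0 + 1) (by omega)
      have hx : (0 : ℝ) < ((i + m0 + 1 : ℕ) : ℝ) := by positivity
      have hy : (0 : ℝ) < ((m0 + 1 : ℕ) : ℝ) := by positivity
      have hxy : ((m0 + 1 : ℕ) : ℝ) ≤ ((i + m0 + 1 : ℕ) : ℝ) := by exact_mod_cast (by omega)
      have hcast : ((i + (m0 + 1) : ℕ) : ℝ) = ((i + m0 + 1 : ℕ) : ℝ) := by
        rw [add_assoc]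
      rw [hf, hcast]
      simp only
      rw [abs_div, abs_of_pos (pow_pos hx k)]
      have h2 : ((i + m0 + 1 : ℕ) : ℝ) ^ (B + 1) / ((i + m0 + 1 : ℕ) : ℝ) ^ k ≤
          ((m0 + 1 : ℕ) : ℝ) ^ (B + 3) / ((m0 + 1 : ℕ) : ℝ) ^ k * (1 / ((i + m0 + 1 : ℕ) : ℝ) ^ 2) := by
        obtain ⟨e, he⟩ : ∃ e, k = (B + 3) + e := ⟨k - (B + 3), by omega⟩
        have e1 : ((i + m0 + 1 : ℕ) : ℝ) ^ (B + 1) / ((i + m0 + 1 : ℕ) : ℝ) ^ k =
            1 / ((i + m0 + 1 : ℕ) : ℝ) ^ e * (1 / ((i + m0 + 1 : ℕ) : ℝ) ^ 2) := by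
          rw [he]
          have : ((i + m0 + 1 : ℕ) : ℝ) ^ (B + 3 + e) = ((i + m0 + 1 : ℕ) : ℝ) ^ (B + 1) *
              (((i + m0 + 1 : ℕ) : ℝ) ^ e * ((i + m0 + 1 : ℕ) : ℝ) ^ 2) := by ring
          rw [this]
          field_simp
        have e2 : ((m0 + 1 : ℕ) : ℝ) ^ (B + 3) / ((m0 + 1 : ℕ) : ℝ) ^ k = 1 / ((m0 + 1 : ℕ) : ℝ) ^ e := by
          rw [he, pow_add _ (B + 3) e]
          have hz : ((m0 + 1 : ℕ) : ℝ) ^ (B + 3) ≠ 0 := by positivity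
          rw [div_mul_eq_div_div, div_self hz]
        rw [e1, e2]
        apply mul_le_mul_of_nonneg_right _ (by positivity)
        exact one_div_le_one_div_of_le (by positivity) (pow_le_pow_left₀ hy.le hxy e)
      calc |gR d T c (i + m0 + 1)| / ((i + m0 + 1 : ℕ) : ℝ) ^ k
          ≤ (H * (T.card + 1) * ((i + m0 + 1 : ℕ) : ℝ) ^ (B + 1)) / ((i + m0 + 1 : ℕ) : ℝ) ^ k :=
            div_le_div_of_nonneg_right h1 (by positivity)
        _ = (H * (T.card + 1)) * (((i + m0 + 1 : ℕ) : ℝ) ^ (B + 1) / ((i + m0 + 1 : ℕ) : ℝ) ^ k) := by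
            rw [mul_div_assoc]
        _ ≤ (H * (T.card + 1)) * (((m0 + 1 : ℕ) : ℝ) ^ (B + 3) / ((m0 + 1 : ℕ) : ℝ) ^ k * (1 / ((i + m0 + 1 : ℕ) : ℝ) ^ 2)) :=
            mul_le_mul_of_nonneg_left h2 hHN.le
        _ = _ := by ring
    have hs3 := hs2.mul_left ((H * (T.card + 1)) * ((m0 + 1 : ℕ) : ℝ) ^ (B + 3) / ((m0 + 1 : ℕ) : ℝ) ^ k)
    have hsabs : Summable fun i : ℕ => |f (i + m0)| :=
      Summable.of_nonneg_of_le (fun i => abs_nonneg _) hterm hs3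
    calc |∑' i : ℕ, f (i + m0)| ≤ ∑' i : ℕ, |f (i + m0)| := by
          have := norm_tsum_le_tsum_norm (f := fun i : ℕ => f (i + m0)) (by simpa using hsabs)
          simpa using this
      _ ≤ ∑' i : ℕ, (H * (T.card + 1)) * ((m0 + 1 : ℕ) : ℝ) ^ (B + 3) / ((m0 + 1 : ℕ) : ℝ) ^ k *
        (1 / ((i + (m0 + 1) : ℕ) : ℝ) ^ 2) := hsabs.tsum_le_tsum hterm hs3
      _ = (H * (T.card + 1)) * ((m0 + 1 : ℕ) : ℝ) ^ (B + 3) / ((m0 + 1 : ℕ) : ℝ) ^ k *
          ∑' i : ℕ, (1 / ((i + (m0 + 1) : ℕ) : ℝ) ^ 2) := tsum_mul_left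
      _ ≤ (H * (T.card + 1)) * ((m0 + 1 : ℕ) : ℝ) ^ (B + 3) / ((m0 + 1 : ℕ) : ℝ) ^ k * 2 :=
          mul_le_mul_of_nonneg_left ht2 (by positivity)
      _ = _ := by ring
  -- the first term
  set L : ℝ := (Nat.lcmUpto (m0 - 1) : ℝ) with hL
  have hLpos : 0 < L := by
    rw [hL]
    exact_mod_cast Nat.lcmUpto_pos _
  have hg := gR_ge d T c B hTB m0 hm0ne
  rw [← hL] at hg
  have hfm : |f (m0 - 1)| * L ^ B * (m0 : ℝ) ^ k ≥ 1 := by
    have h1 : f (m0 - 1) = gR d T c m0 / (m0 : ℝ) ^ k := by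
      rw [hf]
      simp only
      rw [Nat.sub_add_cancel hm01]
    rw [h1, abs_div, abs_of_pos (pow_pos hm0pos k)]
    have h2 : |gR d T c m0| / (m0 : ℝ) ^ k * L ^ B * (m0 : ℝ) ^ k = |gR d T c m0| * L ^ B := by
      field_simp
    rw [h2]
    exact hg
  -- the numerical comparison
  have hnum : 4 * H * (T.card + 1) * ((m0 + 1 : ℕ) : ℝ) ^ (B + 3) * L ^ B * (m0 : ℝ) ^ k ≤ ((m0 + 1 : ℕ) : ℝ) ^ k := by
    have hMpos : (0 : ℝ) < M := by
      have : 0 < M := by omega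
      exact_mod_cast this
    have hMle : ((m0 + 1 : ℕ) : ℝ) ≤ M := by exact_mod_cast hm0M
    have h1 : (m0 : ℝ) * Real.exp (1 / M) ≤ ((m0 + 1 : ℕ) : ℝ) := by
      have h2 : Real.exp (1 / M) ≤ Real.exp (1 / ((m0 + 1 : ℕ) : ℝ)) := by
        apply Real.exp_le_exp.2
        exact one_div_le_one_div_of_le (by positivity) hMle
      have h3 : Real.exp (1 / ((m0 + 1 : ℕ) : ℝ)) ≤ ((m0 + 1 : ℕ) : ℝ) / m0 := by
        have h4 := Real.add_one_le_exp (-(1 / ((m0 + 1 : ℕ) : ℝ)))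
        rw [Real.exp_neg] at h4
        have h5 : -(1 / ((m0 + 1 : ℕ) : ℝ)) + 1 = (m0 : ℝ) / ((m0 + 1 : ℕ) : ℝ) := by
          push_cast
          field_simp
          ring
        rw [h5] at h4
        have h6 := Real.exp_pos (1 / ((m0 + 1 : ℕ) : ℝ))
        have hq : (0 : ℝ) < ((m0 + 1 : ℕ) : ℝ) := by positivity
        rw [le_div_iff₀ hm0pos]
        rw [div_le_iff₀ hq] at h4
        have h7 : Real.exp (1 / ((m0 + 1 : ℕ) : ℝ)) * (m0 : ℝ) ≤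
            Real.exp (1 / ((m0 + 1 : ℕ) : ℝ)) * ((Real.exp (1 / ((m0 + 1 : ℕ) : ℝ)))⁻¹ * ((m0 + 1 : ℕ) : ℝ)) :=
          mul_le_mul_of_nonneg_left h4 h6.le
        rw [← mul_assoc, mul_inv_cancel₀ h6.ne', one_mul] at h7
        exact h7
      calc (m0 : ℝ) * Real.exp (1 / M) ≤ m0 * (((m0 + 1 : ℕ) : ℝ) / m0) :=
            mul_le_mul_of_nonneg_left (h2.trans h3) hm0pos.le
        _ = ((m0 + 1 : ℕ) : ℝ) := by field_simp
    have h8 : (m0 : ℝ) ^ k * Real.exp (k / M) ≤ ((m0 + 1 : ℕ) : ℝ) ^ k := by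
      have h9 : Real.exp ((k : ℝ) / M) = Real.exp (1 / M) ^ k := by
        rw [← Real.exp_nat_mul]
        congr 1
        ring
      rw [h9, ← mul_pow]
      exact pow_le_pow_left₀ (by positivity) h1 k
    have h10 : 4 * H * (T.card + 1) * ((m0 + 1 : ℕ) : ℝ) ^ (B + 3) * L ^ B ≤ Real.exp (k / M) := by
      have hA : 0 < 4 * H * ((T.card : ℝ) + 1) := by positivity
      have h11 : ((m0 + 1 : ℕ) : ℝ) ^ (B + 3) ≤ Real.exp ((B + 3) * Real.log M) := by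
        have : Real.exp ((B + 3) * Real.log M) = (M : ℝ) ^ (B + 3) := by
          rw [mul_comm, Real.exp_mul, Real.exp_log hMpos]
          have : ((B : ℝ) + 3) = ((B + 3 : ℕ) : ℝ) := by push_cast; ring
          rw [this, Real.rpow_natCast]
        rw [this]
        exact pow_le_pow_left₀ (by positivity) hMle _
      have h12 : L ^ B ≤ Real.exp (6 * M * B) := by
        have h13 := lcm_le (m0 - 1)
        have h14 : L ≤ Real.exp (6 * M) := by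
          refine h13.trans (Real.exp_le_exp.2 ?_)
          have : ((m0 - 1 : ℕ) : ℝ) ≤ M := by exact_mod_cast (by omega)
          linarith
        calc L ^ B ≤ (Real.exp (6 * M)) ^ B := pow_le_pow_left₀ hLpos.le h14 B
          _ = Real.exp (6 * M * B) := by
              rw [← Real.exp_nat_mul]
              congr 1
              ring
      calc 4 * H * (T.card + 1) * ((m0 + 1 : ℕ) : ℝ) ^ (B + 3) * L ^ B
          ≤ Real.exp (Real.log (4 * H * (T.card + 1))) * Real.exp ((B + 3) * Real.log M) * Real.exp (6 * M * B) := by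
            rw [Real.exp_log hA]
            exact mul_le_mul (mul_le_mul_of_nonneg_left h11 hA.le) h12 (by positivity) (by positivity)
        _ = Real.exp (Real.log (4 * H * (T.card + 1)) + (B + 3) * Real.log M + 6 * M * B) := by
            rw [Real.exp_add, Real.exp_add]
        _ ≤ Real.exp (k / M) := Real.exp_le_exp.2 hcond
    calc 4 * H * (T.card + 1) * ((m0 + 1 : ℕ) : ℝ) ^ (B + 3) * L ^ B * (m0 : ℝ) ^ k
        ≤ Real.exp (k / M) * (m0 : ℝ) ^ k := mul_le_mul_of_nonneg_right h10 (by positivity)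
      _ = (m0 : ℝ) ^ k * Real.exp (k / M) := by ring
      _ ≤ _ := h8
  -- conclusion
  set Q : ℝ := ((m0 + 1 : ℕ) : ℝ) ^ k with hQdef
  have hQpos : 0 < Q := by positivity
  have hLm : 0 < L ^ B * (m0 : ℝ) ^ k := by positivity
  set W : ℝ := H * (T.card + 1) * ((m0 + 1 : ℕ) : ℝ) ^ (B + 3) with hW
  have hW1 : 1 ≤ W := by
    rw [hW]
    have h1 : (1 : ℝ) ≤ ((m0 + 1 : ℕ) : ℝ) ^ (B + 3) := one_le_pow₀ hQ
    have h2 : (1 : ℝ) ≤ H * ((T.card : ℝ) + 1) := by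
      have : (0 : ℝ) ≤ T.card := Nat.cast_nonneg _
      nlinarith
    nlinarith
  have hfl : 4 * W / Q ≤ |f (m0 - 1)| := by
    rw [div_le_iff₀ hQpos]
    have h1 : 4 * W * (L ^ B * (m0 : ℝ) ^ k) ≤ Q := by
      rw [hW]
      calc 4 * (H * (T.card + 1) * ((m0 + 1 : ℕ) : ℝ) ^ (B + 3)) * (L ^ B * (m0 : ℝ) ^ k)
          = 4 * H * (T.card + 1) * ((m0 + 1 : ℕ) : ℝ) ^ (B + 3) * L ^ B * (m0 : ℝ) ^ k := by ring
        _ ≤ Q := hnum
    have h2 : 1 ≤ |f (m0 - 1)| * (L ^ B * (m0 : ℝ) ^ k) := by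
      have := hfm
      linarith [mul_assoc |f (m0 - 1)| (L ^ B) ((m0 : ℝ) ^ k)]
    have h3 : 0 ≤ |f (m0 - 1)| := abs_nonneg _
    calc 4 * W ≤ 4 * W * (|f (m0 - 1)| * (L ^ B * (m0 : ℝ) ^ k)) := by
          have : 0 ≤ 4 * W := by linarith
          nlinarith
      _ = |f (m0 - 1)| * (4 * W * (L ^ B * (m0 : ℝ) ^ k)) := by ring
      _ ≤ |f (m0 - 1)| * Q := mul_le_mul_of_nonneg_left h1 h3
  have htl : |∑' i : ℕ, f (i + m0)| ≤ 2 * W / Q := by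
    refine htail.trans (le_of_eq ?_)
    rw [hW]
    ring
  have hFlow : 2 * W / Q ≤ |F| := by
    rw [hFeq, hfirst]
    have h1 := abs_sub_abs_le_abs_sub (f (m0 - 1)) (-(∑' i : ℕ, f (i + m0)))
    rw [abs_neg, sub_neg_eq_add] at h1
    have h2 : 4 * W / Q - 2 * W / Q = 2 * W / Q := by ring
    linarith
  calc ((M : ℝ) ^ k)⁻¹ ≤ Q⁻¹ := by
        apply inv_anti₀ hQpos
        rw [hQdef]
        exact pow_le_pow_left₀ (by positivity) (by exact_mod_cast hm0M) k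
    _ ≤ 2 * W / Q := by
        rw [inv_eq_one_div]
        exact div_le_div_of_nonneg_right (by linarith) hQpos.le
    _ ≤ |F| := hFlow

end Pool.Agent.W2helper67.DZ
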