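import Mathlib
import Pool.Agent.W2helper67.DZ.B
import Pool.Agent.H510R2.Div

/-!
# Explicit bound, dense and sparse families
-/

set_option autoImplicit false

namespace Pool.Agent.W2helper67.DZ

open Finset

theorem cond_imp (k B M : ℕ) (H N : ℝ) (hH : 1 ≤ H) (hN : 0 ≤ N) (hM : 4 ≤ M)
    (hcond : Real.log (4 * H * (N + 1)) + (B + 3) * Real.log M + 6 * M * B ≤ k / M) : B + 3 ≤ k := by
  have hMr : (4 : ℝ) ≤ M := by exact_mod_cast hM
  have h1 : 0 ≤ Real.log (4 * H * (N + 1)) := by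
    apply Real.log_nonneg
    nlinarith
  have h2 : 1 ≤ Real.log M := by
    rw [Real.le_log_iff_exp_le (by linarith)]
    have := Real.exp_one_lt_d9
    linarith
  have h3 : (0 : ℝ) ≤ 6 * M * B := by positivity
  have h4 : ((B : ℝ) + 3) ≤ k / M := by
    have : ((B : ℝ) + 3) * 1 ≤ (B + 3) * Real.log M := mul_le_mul_of_nonneg_left h2 (by positivity)
    linarith
  have h5 : (k : ℝ) / M ≤ k := div_le_self (Nat.cast_nonneg k) (by linarith)
  have : ((B + 3 : ℕ) : ℝ) ≤ k := by push_cast; linarith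
  exact_mod_cast this

/-- nonvanishing of one of the first `gR` -/
theorem exists_gR (p : ℕ) (hp : p.Prime) (T : Finset ℕ) (hT : ∀ t ∈ T, 1 ≤ t)
    (hinc : ∀ s ∈ T, ∀ t ∈ T, s % (p - 1) = t % (p - 1) → s = t) (d : ℤ) (c : ℕ → ℤ)
    (hne : d ≠ 0 ∨ ∃ t ∈ T, c t ≠ 0) :
    ∃ m : ℕ, 1 ≤ m ∧ m + 1 ≤ 2 * p ∧ gR d T c m ≠ 0 := by
  have : Fact p.Prime := ⟨hp⟩
  have hp2 := hp.two_le
  by_cases hd : d = 0
  · obtain ⟨m, h1, h2, h3⟩ := exists_ne p T hT hinc c (hne.resolve_left (fun h => h hd))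
    refine ⟨m, by omega, by omega, ?_⟩
    intro h4
    apply h3
    rw [gR, hd, Int.cast_zero, zero_add] at h4
    have h5 : ((∑ t ∈ T, (c t : ℚ) * ∑ n ∈ Finset.Ico 1 m, ((m : ℚ) / n) ^ t : ℚ) : ℝ) = 0 := by
      rw [← h4]
      push_cast
      rfl
    exact_mod_cast h5
  · refine ⟨1, le_refl _, by omega, ?_⟩
    rw [gR]
    simp only [Finset.Ico_self, Finset.sum_empty, mul_zero, Finset.sum_const_zero, add_zero]
    exact_mod_cast hd

/-- (1) explicit form -/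
theorem explicit (p : ℕ) (hp : p.Prime) (T : Finset ℕ) (B : ℕ) (hT : ∀ t ∈ T, 1 ≤ t ∧ t ≤ B)
    (hinc : ∀ s ∈ T, ∀ t ∈ T, s ≡ t [MOD (p - 1)] → s = t) (k M : ℕ) (hM : 2 * p ≤ M) (H : ℝ) (hH : 1 ≤ H) (d : ℤ)
    (c : ℕ → ℤ) (hne : d ≠ 0 ∨ ∃ t ∈ T, c t ≠ 0) (hd : |(d : ℝ)| ≤ H) (hc : ∀ t ∈ T, |(c t : ℝ)| ≤ H)
    (hcond : Real.log (4 * H * (T.card + 1)) + (B + 3) * Real.log M + 6 * M * B ≤ k / M) :
    ((M : ℝ) ^ k)⁻¹ ≤ |(d : ℝ) * zt k + ∑ t ∈ T, (c t : ℝ) * dz (k - t) t| := by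
  obtain ⟨m, h1, h2, h3⟩ := exists_gR p hp T (fun t ht => (hT t ht).1) (fun s hs t ht h => hinc s hs t ht h) d c hne
  have hp2 := hp.two_le
  exact main_bound k d T c H B M hH hd hc (fun t ht => (hT t ht).2) m h1 (by omega) h3
    (cond_imp k B M H T.card hH (by positivity) (by omega) hcond) hcond

/-- (2) all arguments up to `B` -/
theorem dense (B k : ℕ) (hB : 1 ≤ B) (hk : 1000 * B ^ 3 ≤ k) (d : ℤ) (c : ℕ → ℤ)
    (hne : d ≠ 0 ∨ ∃ t ∈ Finset.Icc 1 B, c t ≠ 0) (hd : |(d : ℝ)| ≤ Real.exp (k / (1000 * B)))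
    (hc : ∀ t ∈ Finset.Icc 1 B, |(c t : ℝ)| ≤ Real.exp (k / (1000 * B))) :
    (((4 * B : ℕ) : ℝ) ^ k)⁻¹ ≤ |(d : ℝ) * zt k + ∑ t ∈ Finset.Icc 1 B, (c t : ℝ) * dz (k - t) t| := by
  obtain ⟨p, hp, hp1, hp2⟩ := Nat.exists_prime_lt_and_le_two_mul B (by omega)
  have hBr : (1 : ℝ) ≤ B := by exact_mod_cast hB
  have hkr : 1000 * (B : ℝ) ^ 3 ≤ k := by exact_mod_cast hk
  have hH : (1 : ℝ) ≤ Real.exp (k / (1000 * B)) := Real.one_le_exp (by positivity)
  apply explicit p hp (Finset.Icc 1 B) B (fun t ht => Finset.mem_Icc.1 ht) ?_ k (4 * B) (by omega)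
    (Real.exp (k / (1000 * B))) hH d c hne hd hc ?_
  · intro s hs t ht h
    rw [Finset.mem_Icc] at hs ht
    have h1 : s % (p - 1) = t % (p - 1) := h
    rcases Nat.lt_or_ge s (p - 1) with h2 | h2
    · rw [Nat.mod_eq_of_lt h2] at h1
      rcases Nat.lt_or_ge t (p - 1) with h3 | h3
      · rw [Nat.mod_eq_of_lt h3] at h1
        exact h1
      · have h4 : t = p - 1 := by omega
        rw [h4, Nat.mod_self] at h1
        omega
    · have h4 : s = p - 1 := by omega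
      rw [h4, Nat.mod_self] at h1
      rcases Nat.lt_or_ge t (p - 1) with h3 | h3
      · rw [Nat.mod_eq_of_lt h3] at h1
        omega
      · omega
  · rw [Nat.card_Icc, Nat.add_sub_cancel]
    have h4B : ((4 * B : ℕ) : ℝ) = 4 * B := by push_cast; ring
    rw [h4B]
    have hlog : Real.log (4 * Real.exp (k / (1000 * B)) * (B + 1)) = Real.log (4 * ((B : ℝ) + 1)) + k / (1000 * B) := by
      have : 4 * Real.exp (k / (1000 * B)) * ((B : ℝ) + 1) = (4 * ((B : ℝ) + 1)) * Real.exp (k / (1000 * B)) := by ring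
      rw [this, Real.log_mul (by positivity) (Real.exp_ne_zero _), Real.log_exp]
    rw [hlog]
    have h1 : Real.log (4 * ((B : ℝ) + 1)) ≤ 7 * (B : ℝ) ^ 2 := by
      have := Real.log_le_sub_one_of_pos (show (0 : ℝ) < 4 * ((B : ℝ) + 1) by positivity)
      nlinarith
    have h2 : Real.log (4 * (B : ℝ)) ≤ 2 * B := by
      have h3 := Real.log_le_sub_one_of_pos (show (0 : ℝ) < 2 * (B : ℝ) by positivity)
      have h5 : (4 * (B : ℝ)) = 2 * (2 * B) := by ring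
      rw [h5, Real.log_mul (by norm_num) (by positivity)]
      have h6 : Real.log 2 ≤ 1 := by
        have := Real.log_two_lt_d9
        linarith
      linarith
    have h3 : ((B : ℝ) + 3) * Real.log (4 * B) ≤ 8 * (B : ℝ) ^ 2 := by
      calc ((B : ℝ) + 3) * Real.log (4 * B) ≤ (4 * B) * (2 * B) := by
            apply mul_le_mul (by linarith) h2 (Real.log_nonneg (by linarith)) (by linarith)
        _ = 8 * (B : ℝ) ^ 2 := by ring
    have h4 : (k : ℝ) / (4 * B) = k / (1000 * B) + 249 * k / (1000 * B) := by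
      field_simp
      ring
    have h5 : 249 * (B : ℝ) ^ 2 ≤ 249 * k / (1000 * B) := by
      rw [le_div_iff₀ (by positivity)]
      nlinarith
    rw [h4]
    nlinarith

/-- prime counting lower bound -/
theorem pi_lower (η : ℝ) (hη : 0 < η) : ∃ n0 : ℕ, ∀ n : ℕ, n0 ≤ n → (n : ℝ) ^ (1 - η) ≤ (Nat.primeCounting n : ℝ) := by
  have h1 : Filter.Tendsto (fun n : ℕ => Real.log n / (n : ℝ) ^ η) Filter.atTop (nhds 0) := by
    have h := (isLittleO_log_rpow_atTop hη).tendsto_div_nhds_zero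
    exact h.comp tendsto_natCast_atTop_atTop
  have h2 : Filter.Tendsto (fun n : ℕ => Real.log (n + 1) / (n : ℝ)) Filter.atTop (nhds 0) := by
    have h := (Real.isLittleO_log_id_atTop).tendsto_div_nhds_zero
    have h3 : Filter.Tendsto (fun n : ℕ => Real.log ((n : ℝ) + 1) / ((n : ℝ) + 1)) Filter.atTop (nhds 0) :=
      h.comp (tendsto_natCast_atTop_atTop.atTop_add tendsto_const_nhds)
    have h4 : Filter.Tendsto (fun n : ℕ => (Real.log ((n : ℝ) + 1) / ((n : ℝ) + 1)) * (((n : ℝ) + 1) / n)) Filter.atTop (nhds (0 * 1)) := by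
      apply h3.mul
      have h5 : Filter.Tendsto (fun n : ℕ => 1 + 1 / (n : ℝ)) Filter.atTop (nhds (1 + 0)) :=
        tendsto_const_nhds.add tendsto_one_div_atTop_nhds_zero_nat
      rw [add_zero] at h5
      refine h5.congr' ?_
      filter_upwards [Filter.eventually_gt_atTop 0] with n hn
      have : (n : ℝ) ≠ 0 := by positivity
      field_simp
    rw [zero_mul] at h4
    refine h4.congr' ?_
    filter_upwards [Filter.eventually_gt_atTop 0] with n hn
    have : (n : ℝ) ≠ 0 := by positivity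
    have : (n : ℝ) + 1 ≠ 0 := by positivity
    field_simp
  obtain ⟨n1, hn1⟩ := Filter.eventually_atTop.1 (h1.eventually (gt_mem_nhds (show (0 : ℝ) < 1 / 4 by norm_num)))
  obtain ⟨n2, hn2⟩ := Filter.eventually_atTop.1 (h2.eventually (gt_mem_nhds (show (0 : ℝ) < 1 / 4 by norm_num)))
  refine ⟨max (max n1 n2) 3, fun n hn => ?_⟩
  have hn3 : 3 ≤ n := (le_max_right _ _).trans hn
  have hnr : (3 : ℝ) ≤ n := by exact_mod_cast hn3
  have a1 := hn1 n ((le_max_left _ _).trans ((le_max_left _ _).trans hn))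
  have a2 := hn2 n ((le_max_right _ _).trans ((le_max_left _ _).trans hn))
  have hpos : (0 : ℝ) < n := by linarith
  have hlog : 0 < Real.log n := Real.log_pos (by linarith)
  rw [div_lt_iff₀ (by positivity)] at a1 a2
  refine le_trans ?_ (Chebyshev.pi_ge n)
  rw [le_div_iff₀ hlog]
  have h3 : (n : ℝ) ^ (1 - η) * Real.log n ≤ (n : ℝ) ^ (1 - η) * (1 / 4 * (n : ℝ) ^ η) :=
    mul_le_mul_of_nonneg_left a1.le (by positivity)
  have h4 : (n : ℝ) ^ (1 - η) * (1 / 4 * (n : ℝ) ^ η) = 1 / 4 * n := by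
    have : (n : ℝ) ^ (1 - η) * (n : ℝ) ^ η = n := by
      rw [← Real.rpow_add hpos]
      simp
    linear_combination (1 / 4) * this
  have h5 : (0.69 : ℝ) < Real.log 2 := by
    have := Real.log_two_gt_d9
    linarith
  nlinarith

/-- a prime `p ≤ N ^ 2 k ^ δ` such that the elements of `T` are incongruent modulo `p - 1` -/
theorem exists_prime (δ : ℝ) (hδ : 0 < δ) (hδ1 : δ ≤ 1) : ∃ k0 : ℕ, ∀ k : ℕ, k0 ≤ k → ∀ T : Finset ℕ, T.Nonempty →
    (∀ t ∈ T, t ≤ k) → T.card ≤ k → ∃ p : ℕ, p.Prime ∧ (p : ℝ) ≤ (T.card : ℝ) ^ 2 * (k : ℝ) ^ δ ∧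
      ∀ s ∈ T, ∀ t ∈ T, s ≡ t [MOD (p - 1)] → s = t := by
  obtain ⟨C, hC, hdiv⟩ := Pool.Agent.H510R2.divisor_bound (δ / 2) (by positivity)
  obtain ⟨n0, hn0⟩ := pi_lower (δ / 12) (by positivity)
  have ht1 : Filter.Tendsto (fun k : ℕ => (k : ℝ) ^ δ) Filter.atTop Filter.atTop :=
    (tendsto_rpow_atTop hδ).comp tendsto_natCast_atTop_atTop
  have ht2 : Filter.Tendsto (fun k : ℕ => (k : ℝ) ^ (δ / 4)) Filter.atTop Filter.atTop :=
    (tendsto_rpow_atTop (by positivity)).comp tendsto_natCast_atTop_atTop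
  obtain ⟨k1, hk1⟩ := Filter.eventually_atTop.1 (ht1.eventually_ge_atTop ((n0 : ℝ) + 2))
  obtain ⟨k2, hk2⟩ := Filter.eventually_atTop.1 (ht2.eventually_gt_atTop (2 * C))
  refine ⟨max (max k1 k2) 1, fun k hk T hTne hTk hcard => ?_⟩
  have hkk1 := hk1 k ((le_max_left _ _).trans ((le_max_left _ _).trans hk))
  have hkk2 := hk2 k ((le_max_right _ _).trans ((le_max_left _ _).trans hk))
  have hk1' : 1 ≤ k := (le_max_right _ _).trans hk
  have hkr : (1 : ℝ) ≤ k := by exact_mod_cast hk1'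
  set N : ℝ := (T.card : ℝ) with hN
  have hN1 : 1 ≤ N := by
    rw [hN]
    exact_mod_cast Finset.card_pos.2 hTne
  have hNk : N ≤ k := by rw [hN]; exact_mod_cast hcard
  set X : ℝ := N ^ 2 * (k : ℝ) ^ δ with hX
  have hXge : (k : ℝ) ^ δ ≤ X := by
    rw [hX]
    have h1 : (0 : ℝ) < (k : ℝ) ^ δ := by positivity
    have h2 : (1 : ℝ) ≤ N ^ 2 := one_le_pow₀ hN1
    have h3 := mul_le_mul_of_nonneg_right h2 h1.le
    linarith
  have hX2 : (n0 : ℝ) + 2 ≤ X := hkk1.trans hXge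
  have hn00 : (0 : ℝ) ≤ n0 := Nat.cast_nonneg _
  set X' : ℕ := ⌊X⌋₊ with hX'
  have hX'le : (X' : ℝ) ≤ X := Nat.floor_le (by linarith)
  have hX'lt : X < X' + 1 := Nat.lt_floor_add_one X
  have hX'half : X / 2 ≤ X' := by linarith
  have hX'n0 : n0 ≤ X' := by
    have : (n0 : ℝ) ≤ X' := by linarith
    exact_mod_cast this
  have hpi := hn0 X' hX'n0
  -- upper bound for the number of bad primes
  by_contra hcon
  push Not at hcon
  set Pr : Finset ℕ := (Finset.range (X' + 1)).filter Nat.Prime with hPr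
  have hPrcard : Pr.card = Nat.primeCounting X' := by
    rw [hPr, Nat.primeCounting, Nat.primeCounting', Nat.count_eq_card_filter_range]
  have hcover : Pr ⊆ ((T ×ˢ T).filter fun x => x.1 < x.2).biUnion fun x => ((x.2 - x.1).divisors).image (fun e => e + 1) := by
    intro p hp
    rw [hPr, Finset.mem_filter, Finset.mem_range] at hp
    have hpX : (p : ℝ) ≤ X := by
      have : (p : ℝ) ≤ X' := by exact_mod_cast (by omega : p ≤ X')
      linarith
    obtain ⟨s, hs, t, ht, hst, hne⟩ := hcon p hp.2 hpX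
    have hp1 : p - 1 + 1 = p := Nat.sub_add_cancel hp.2.one_le
    rw [Finset.mem_biUnion]
    rcases Nat.lt_or_gt_of_ne hne with h | h
    · refine ⟨(s, t), Finset.mem_filter.2 ⟨Finset.mem_product.2 ⟨hs, ht⟩, h⟩, Finset.mem_image.2 ⟨p - 1, ?_, hp1⟩⟩
      rw [Nat.mem_divisors]
      refine ⟨?_, by simp only; omega⟩
      exact (Nat.modEq_iff_dvd' h.le).1 hst
    · refine ⟨(t, s), Finset.mem_filter.2 ⟨Finset.mem_product.2 ⟨ht, hs⟩, h⟩, Finset.mem_image.2 ⟨p - 1, ?_, hp1⟩⟩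
      rw [Nat.mem_divisors]
      refine ⟨?_, by simp only; omega⟩
      exact (Nat.modEq_iff_dvd' h.le).1 hst.symm
  have hbad : (Pr.card : ℝ) ≤ N ^ 2 * (C * (k : ℝ) ^ (δ / 2)) := by
    have h1 : (Pr.card : ℝ) ≤ ∑ x ∈ (T ×ˢ T).filter (fun x => x.1 < x.2), (((x.2 - x.1).divisors).card : ℝ) := by
      have h2 := (Finset.card_le_card hcover).trans Finset.card_biUnion_le
      have h3 : (Pr.card : ℝ) ≤ ∑ x ∈ (T ×ˢ T).filter (fun x => x.1 < x.2), ((((x.2 - x.1).divisors).image (fun e => e + 1)).card : ℝ) := by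
        exact_mod_cast h2
      refine h3.trans (Finset.sum_le_sum fun x _ => ?_)
      exact_mod_cast Finset.card_image_le
    have h4 : ∀ x ∈ (T ×ˢ T).filter (fun x => x.1 < x.2), (((x.2 - x.1).divisors).card : ℝ) ≤ C * (k : ℝ) ^ (δ / 2) := by
      intro x hx
      rw [Finset.mem_filter, Finset.mem_product] at hx
      refine (hdiv (x.2 - x.1) (by omega)).trans ?_
      apply mul_le_mul_of_nonneg_left _ hC.le
      apply Real.rpow_le_rpow (Nat.cast_nonneg _) _ (by positivity)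
      have := hTk x.2 hx.1.2
      exact_mod_cast (by omega : x.2 - x.1 ≤ k)
    have h5 : (((T ×ˢ T).filter fun x => x.1 < x.2).card : ℝ) ≤ N ^ 2 := by
      have h6 := Finset.card_filter_le (T ×ˢ T) (fun x => x.1 < x.2)
      rw [Finset.card_product] at h6
      rw [hN, sq]
      exact_mod_cast h6
    calc (Pr.card : ℝ) ≤ ∑ x ∈ (T ×ˢ T).filter (fun x => x.1 < x.2), C * (k : ℝ) ^ (δ / 2) :=
          h1.trans (Finset.sum_le_sum h4)
      _ = (((T ×ˢ T).filter fun x => x.1 < x.2).card : ℝ) * (C * (k : ℝ) ^ (δ / 2)) := by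
          rw [Finset.sum_const, nsmul_eq_mul]
      _ ≤ N ^ 2 * (C * (k : ℝ) ^ (δ / 2)) := mul_le_mul_of_nonneg_right h5 (by positivity)
  rw [hPrcard] at hbad
  -- lower bound
  have hXpos : 0 < X := by linarith
  have hXk : X ≤ (k : ℝ) ^ (3 : ℝ) := by
    rw [hX]
    calc N ^ 2 * (k : ℝ) ^ δ ≤ (k : ℝ) ^ 2 * (k : ℝ) ^ (1 : ℝ) := by
          apply mul_le_mul (pow_le_pow_left₀ (by linarith) hNk 2)
            (Real.rpow_le_rpow_of_exponent_le hkr hδ1) (by positivity) (by positivity)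
      _ = (k : ℝ) ^ (3 : ℝ) := by
          rw [Real.rpow_one]
          norm_cast
  have hlow : X / 2 / (k : ℝ) ^ (δ / 4) ≤ (X' : ℝ) ^ (1 - δ / 12) := by
    have hX'pos : (0 : ℝ) < X' := by linarith
    rw [Real.rpow_sub hX'pos, Real.rpow_one]
    apply div_le_div₀ hX'pos.le hX'half (by positivity)
    calc (X' : ℝ) ^ (δ / 12) ≤ ((k : ℝ) ^ (3 : ℝ)) ^ (δ / 12) :=
          Real.rpow_le_rpow hX'pos.le (hX'le.trans hXk) (by positivity)
      _ = (k : ℝ) ^ (δ / 4) := by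
          rw [← Real.rpow_mul (by linarith)]
          congr 1
          ring
  have hfin : X / 2 / (k : ℝ) ^ (δ / 4) ≤ N ^ 2 * (C * (k : ℝ) ^ (δ / 2)) := (hlow.trans hpi).trans hbad
  have hk4 : (0 : ℝ) < (k : ℝ) ^ (δ / 4) := by positivity
  have e1 : (k : ℝ) ^ δ = (k : ℝ) ^ (δ / 4) * (k : ℝ) ^ (δ / 4) * (k : ℝ) ^ (δ / 2) := by
    rw [← Real.rpow_add (by linarith), ← Real.rpow_add (by linarith)]
    congr 1
    ring
  rw [div_le_iff₀ hk4, hX, e1] at hfin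
  have hA : 0 < N ^ 2 * (k : ℝ) ^ (δ / 2) * (k : ℝ) ^ (δ / 4) := by positivity
  nlinarith

/-- (3) sparse families -/
theorem sparse (ε : ℝ) (hε : 0 < ε) : ∃ k0 : ℕ, ∀ k : ℕ, k0 ≤ k → ∀ (B : ℕ) (T : Finset ℕ), T.Nonempty →
    (∀ t ∈ T, 1 ≤ t ∧ t ≤ B) → (T.card : ℝ) ^ 4 * B ≤ (k : ℝ) ^ (1 - ε) → ∀ (d : ℤ) (c : ℕ → ℤ),
    (d ≠ 0 ∨ ∃ t ∈ T, c t ≠ 0) → |(d : ℝ)| ≤ Real.exp ((k : ℝ) ^ (1 - ε) / (T.card : ℝ) ^ 2) →
    (∀ t ∈ T, |(c t : ℝ)| ≤ Real.exp ((k : ℝ) ^ (1 - ε) / (T.card : ℝ) ^ 2)) →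
    (((T.card : ℝ) ^ 2 * (k : ℝ) ^ ε) ^ k)⁻¹ ≤ |(d : ℝ) * zt k + ∑ t ∈ T, (c t : ℝ) * dz (k - t) t| := by
  set δ : ℝ := min (ε / 3) (1 / 3) with hδdef
  have hδ : 0 < δ := by rw [hδdef]; positivity
  have hδ1 : δ ≤ 1 := (min_le_right _ _).trans (by norm_num)
  have hδε : 3 * δ ≤ ε := by
    have := min_le_left (ε / 3) (1 / 3)
    rw [← hδdef] at this
    linarith
  obtain ⟨k1, hk1⟩ := exists_prime δ hδ hδ1
  have ht1 : Filter.Tendsto (fun k : ℕ => (k : ℝ) ^ δ) Filter.atTop Filter.atTop :=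
    (tendsto_rpow_atTop hδ).comp tendsto_natCast_atTop_atTop
  obtain ⟨k2, hk2⟩ := Filter.eventually_atTop.1 (ht1.eventually_ge_atTop 58)
  refine ⟨max (max k1 k2) 1, fun k hk B T hTne hT hcard d c hne hd hc => ?_⟩
  have hkk1 := hk1 k ((le_max_left _ _).trans ((le_max_left _ _).trans hk)) T hTne
  have hkk2 := hk2 k ((le_max_right _ _).trans ((le_max_left _ _).trans hk))
  have hk1' : 1 ≤ k := (le_max_right _ _).trans hk
  have hkr : (1 : ℝ) ≤ k := by exact_mod_cast hk1'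
  set N : ℝ := (T.card : ℝ) with hN
  have hN1 : 1 ≤ N := by
    rw [hN]
    exact_mod_cast Finset.card_pos.2 hTne
  obtain ⟨t0, ht0⟩ := hTne
  have hB1 : 1 ≤ B := (hT t0 ht0).1.trans (hT t0 ht0).2
  have hBr : (1 : ℝ) ≤ B := by exact_mod_cast hB1
  have hK : (k : ℝ) ^ (1 - ε) ≤ k := by
    calc (k : ℝ) ^ (1 - ε) ≤ (k : ℝ) ^ (1 : ℝ) := Real.rpow_le_rpow_of_exponent_le hkr (by linarith)
      _ = k := Real.rpow_one _
  have hN4 : N ≤ N ^ 4 := by
    calc N = N ^ 1 := (pow_one _).symm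
      _ ≤ N ^ 4 := pow_le_pow_right₀ hN1 (by norm_num)
  have hBk : (B : ℝ) ≤ k := by
    have : (B : ℝ) ≤ N ^ 4 * B := by nlinarith
    linarith
  have hNk : N ≤ k := by
    have : N ≤ N ^ 4 * B := by nlinarith
    linarith
  obtain ⟨p, hp, hpX, hinc⟩ := hkk1 (fun t ht => by
      have h1 : t ≤ B := (hT t ht).2
      have h2 : B ≤ k := by exact_mod_cast hBk
      omega) (by rw [hN] at hNk; exact_mod_cast hNk)
  have hp2 : (2 : ℝ) ≤ p := by exact_mod_cast hp.two_le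
  set U : ℝ := (k : ℝ) ^ (1 - ε) with hU
  have hUpos : 0 < U := by positivity
  have hN2 : 0 < N ^ 2 := by positivity
  have hkδ : 0 < (k : ℝ) ^ δ := by positivity
  have hmain := explicit p hp T B hT hinc k (2 * p) (le_refl _) (Real.exp (U / N ^ 2))
    (Real.one_le_exp (by positivity)) d c hne hd hc ?_
  · refine le_trans ?_ hmain
    have h1 : ((2 * p : ℕ) : ℝ) ≤ N ^ 2 * (k : ℝ) ^ ε := by
      push_cast
      have h2 : 2 * (k : ℝ) ^ δ ≤ (k : ℝ) ^ ε := by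
        calc 2 * (k : ℝ) ^ δ ≤ (k : ℝ) ^ δ * (k : ℝ) ^ δ := mul_le_mul_of_nonneg_right (by linarith) hkδ.le
          _ = (k : ℝ) ^ (δ + δ) := (Real.rpow_add (by linarith) _ _).symm
          _ ≤ (k : ℝ) ^ ε := Real.rpow_le_rpow_of_exponent_le hkr (by linarith)
      calc 2 * (p : ℝ) ≤ 2 * (N ^ 2 * (k : ℝ) ^ δ) := by linarith
        _ = N ^ 2 * (2 * (k : ℝ) ^ δ) := by ring
        _ ≤ N ^ 2 * (k : ℝ) ^ ε := mul_le_mul_of_nonneg_left h2 hN2.le
    have h3 : (0 : ℝ) < ((2 * p : ℕ) : ℝ) := by push_cast; linarith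
    exact inv_anti₀ (pow_pos h3 k) (pow_le_pow_left₀ h3.le h1 k)
  · -- the numerical condition
    have hcast : ((2 * p : ℕ) : ℝ) = 2 * p := by push_cast; ring
    rw [hcast, ← hN]
    have hlog : Real.log (4 * Real.exp (U / N ^ 2) * (N + 1)) = Real.log (4 * (N + 1)) + U / N ^ 2 := by
      have : 4 * Real.exp (U / N ^ 2) * (N + 1) = (4 * (N + 1)) * Real.exp (U / N ^ 2) := by ring
      rw [this, Real.log_mul (by positivity) (Real.exp_ne_zero _), Real.log_exp]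
    rw [hlog]
    set V : ℝ := U / N ^ 2 * (k : ℝ) ^ δ with hV
    have hUV : U / N ^ 2 ≤ V := by
      rw [hV]
      have : 0 < U / N ^ 2 := by positivity
      nlinarith
    have hBV : (B : ℝ) * N ^ 2 ≤ U / N ^ 2 := by
      rw [le_div_iff₀ hN2]
      calc (B : ℝ) * N ^ 2 * N ^ 2 = N ^ 4 * B := by ring
        _ ≤ U := hcard
    have h1 : Real.log (4 * (N + 1)) ≤ 8 * V := by
      have h2 := Real.log_le_sub_one_of_pos (show (0 : ℝ) < 4 * (N + 1) by positivity)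
      have h3 : N ≤ B * N ^ 2 := by nlinarith
      linarith
    have hpB : (p : ℝ) * B ≤ V := by
      calc (p : ℝ) * B ≤ (N ^ 2 * (k : ℝ) ^ δ) * B := mul_le_mul_of_nonneg_right hpX (by positivity)
        _ = (B * N ^ 2) * (k : ℝ) ^ δ := by ring
        _ ≤ U / N ^ 2 * (k : ℝ) ^ δ := mul_le_mul_of_nonneg_right hBV hkδ.le
    have h4 : ((B : ℝ) + 3) * Real.log (2 * p) ≤ 8 * V := by
      have h5 := Real.log_le_sub_one_of_pos (show (0 : ℝ) < 2 * p by positivity)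
      have h6 : 0 ≤ Real.log (2 * p) := Real.log_nonneg (by linarith)
      calc ((B : ℝ) + 3) * Real.log (2 * p) ≤ (4 * B) * (2 * p) :=
            mul_le_mul (by linarith) (by linarith) h6 (by positivity)
        _ = 8 * (p * B) := by ring
        _ ≤ 8 * V := by linarith
    have h7 : 6 * (2 * (p : ℝ)) * B ≤ 12 * V := by nlinarith
    have h8 : 29 * V ≤ k / (2 * p) := by
      rw [le_div_iff₀ (by positivity)]
      calc 29 * V * (2 * p) = 58 * (V * p) := by ring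
        _ ≤ 58 * (V * (N ^ 2 * (k : ℝ) ^ δ)) := by
            apply mul_le_mul_of_nonneg_left _ (by norm_num)
            exact mul_le_mul_of_nonneg_left hpX (by positivity)
        _ = 58 * (U * ((k : ℝ) ^ δ * (k : ℝ) ^ δ)) := by
            rw [hV]
            field_simp
        _ ≤ (k : ℝ) ^ δ * (U * ((k : ℝ) ^ δ * (k : ℝ) ^ δ)) :=
            mul_le_mul_of_nonneg_right hkk2 (by positivity)
        _ = (k : ℝ) ^ (1 - ε + 3 * δ) := by
            rw [hU, ← Real.rpow_add (by linarith), ← Real.rpow_add (by linarith), ← Real.rpow_add (by linarith)]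
            congr 1
            ring
        _ ≤ (k : ℝ) ^ (1 : ℝ) := Real.rpow_le_rpow_of_exponent_le hkr (by linarith)
        _ = k := Real.rpow_one _
    linarith

end Pool.Agent.W2helper67.DZ
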