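import Mathlib
import Pool.Agent.W2helper67.DZ.C

/-!
# The full range `B ≤ κ k`
-/

set_option autoImplicit false

namespace Pool.Agent.W2helper67.DZ

open Finset

/-- the part `n = p` of a vanishing sum is `p`-integral -/
theorem part_integral (p : ℕ) [hp : Fact p.Prime] (T : Finset ℕ) (c : ℕ → ℤ)
    (m : ℕ) (hm1 : p < m) (hm2 : m < 2 * p)
    (h0 : ∑ t ∈ T, (c t : ℚ) * ∑ n ∈ Finset.Ico 1 m, ((m : ℚ) / n) ^ t = 0) :
    padicNorm p (∑ t ∈ T, (c t : ℚ) * ((m : ℚ) / p) ^ t) ≤ 1 := by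
  have hmem : p ∈ Finset.Ico 1 m := Finset.mem_Ico.2 ⟨hp.1.one_le, hm1⟩
  set R : ℚ := ∑ t ∈ T, ∑ n ∈ (Finset.Ico 1 m).erase p, (c t : ℚ) * ((m : ℚ) / n) ^ t with hR
  have hsplit : ∑ t ∈ T, (c t : ℚ) * ((m : ℚ) / p) ^ t = -R := by
    have h1 : ∑ t ∈ T, (c t : ℚ) * ∑ n ∈ Finset.Ico 1 m, ((m : ℚ) / n) ^ t =
        (∑ t ∈ T, (c t : ℚ) * ((m : ℚ) / p) ^ t) + R := by
      rw [hR, ← Finset.sum_add_distrib]
      refine Finset.sum_congr rfl fun t _ => ?_
      rw [← Finset.add_sum_erase _ _ hmem, mul_add, Finset.mul_sum]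
    rw [h1] at h0
    linarith
  rw [hsplit, padicNorm.neg, hR]
  refine padicNorm.sum_le' (fun t ht => padicNorm.sum_le' (fun n hn => ?_) zero_le_one) zero_le_one
  obtain ⟨hn1, hn2⟩ := Finset.mem_erase.1 hn
  rw [Finset.mem_Ico] at hn2
  have hpn : ¬ p ∣ n := by
    rintro ⟨a, rfl⟩
    rcases Nat.lt_or_ge a 2 with ha | ha
    · interval_cases a
      · omega
      · exact hn1 (by ring)
    · have : p * 2 ≤ p * a := Nat.mul_le_mul_left _ ha
      omega
  have hn1' : padicNorm p (n : ℚ) = 1 := (padicNorm.nat_eq_one_iff n).2 hpn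
  have hpow : ∀ (x : ℚ) (j : ℕ), padicNorm p (x ^ j) = padicNorm p x ^ j := by
    intro x j
    induction j with
    | zero => simp
    | succ j ih => rw [pow_succ, pow_succ, padicNorm.mul, ih]
  rw [padicNorm.mul, hpow, padicNorm.div, hn1', div_one]
  have h1 : padicNorm p (c t : ℚ) ≤ 1 := padicNorm.of_int _
  have h2 : padicNorm p (m : ℚ) ^ t ≤ 1 := pow_le_one₀ (padicNorm.nonneg _) (padicNorm.of_nat _)
  calc padicNorm p (c t : ℚ) * padicNorm p (m : ℚ) ^ t ≤ 1 * 1 :=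
        mul_le_mul h1 h2 (pow_nonneg (padicNorm.nonneg _) _) zero_le_one
    _ = 1 := one_mul 1

/-- one step: divisibility of the top coefficients -/
theorem step_dvd (p : ℕ) [hp : Fact p.Prime] (b : ℕ) (c : ℕ → ℤ)
    (h0 : ∀ m : ℕ, p < m → m < 2 * p → ∑ t ∈ Finset.Icc 1 b, (c t : ℚ) * ∑ n ∈ Finset.Ico 1 m, ((m : ℚ) / n) ^ t = 0)
    (j : ℕ) (hj1 : j + 1 ≤ p - 1) (hj2 : j + 1 ≤ b)
    (hS : ∀ t, b - j ≤ t → t ≤ b → (p : ℤ) ^ (t - (b - j)) ∣ c t) :
    ∀ t, b - j ≤ t → t ≤ b → (p : ℤ) ^ (t - (b - j) + 1) ∣ c t := by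
  have hp0 : (p : ℚ) ≠ 0 := by exact_mod_cast hp.1.ne_zero
  have hpz : (p : ℤ) ≠ 0 := by exact_mod_cast hp.1.ne_zero
  set a : ℕ := b - j with ha
  have ha1 : 1 ≤ a := by omega
  set e : ℕ → ℤ := fun t => c t / (p : ℤ) ^ (t - a) with he
  have hce : ∀ t, a ≤ t → t ≤ b → c t = (p : ℤ) ^ (t - a) * e t := by
    intro t h1 h2
    rw [he]
    exact (Int.mul_ediv_cancel' (hS t h1 h2)).symm
  have hdvd : ∀ m : ℕ, p < m → m < 2 * p → (p : ℤ) ∣ ∑ t ∈ Finset.Icc a b, e t * (m : ℤ) ^ t := by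
    intro m hm1 hm2
    have h1 := part_integral p (Finset.Icc 1 b) c m hm1 hm2 (h0 m hm1 hm2)
    set R : ℚ := ∑ t ∈ Finset.Icc 1 b, (c t : ℚ) * ((m : ℚ) / p) ^ t with hR
    have hnn : (0 : ℚ) ≤ (p : ℚ) ^ (-(1 : ℕ) : ℤ) := by positivity
    have hpinv : (p : ℚ) ^ (-(1 : ℕ) : ℤ) = (p : ℚ)⁻¹ := by
      rw [zpow_neg, Nat.cast_one, zpow_one]
    have hpow : ∀ (x : ℚ) (j : ℕ), padicNorm p (x ^ j) = padicNorm p x ^ j := by
      intro x j
      induction j with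
      | zero => simp
      | succ j ih => rw [pow_succ, pow_succ, padicNorm.mul, ih]
    have hpi1 : (p : ℚ)⁻¹ ≤ 1 := inv_le_one_of_one_le₀ (by exact_mod_cast hp.1.one_le)
    have hpi0 : (0 : ℚ) ≤ (p : ℚ)⁻¹ := by positivity
    have hppow : ∀ i : ℕ, 1 ≤ i → padicNorm p ((p : ℚ) ^ i) ≤ (p : ℚ) ^ (-(1 : ℕ) : ℤ) := by
      intro i hi
      rw [hpow, padicNorm.padicNorm_p_of_prime, hpinv]
      calc ((p : ℚ)⁻¹) ^ i ≤ ((p : ℚ)⁻¹) ^ 1 := pow_le_pow_of_le_one hpi0 hpi1 hi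
        _ = _ := pow_one _
    have h2 : padicNorm p ((p : ℚ) ^ a * R) ≤ (p : ℚ) ^ (-(1 : ℕ) : ℤ) := by
      rw [padicNorm.mul]
      calc padicNorm p ((p : ℚ) ^ a) * padicNorm p R ≤ (p : ℚ) ^ (-(1 : ℕ) : ℤ) * 1 :=
            mul_le_mul (hppow a ha1) h1 (padicNorm.nonneg _) hnn
        _ = _ := mul_one _
    have h3 : (p : ℚ) ^ a * R = ((∑ t ∈ Finset.Icc a b, e t * (m : ℤ) ^ t : ℤ) : ℚ) +
        ∑ t ∈ Finset.Ico 1 a, (c t : ℚ) * (m : ℚ) ^ t * (p : ℚ) ^ (a - t) := by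
      have hun : Finset.Icc 1 b = Finset.Icc a b ∪ Finset.Ico 1 a := by
        ext x
        simp only [Finset.mem_Icc, Finset.mem_union, Finset.mem_Ico]
        omega
      have hdis : Disjoint (Finset.Icc a b) (Finset.Ico 1 a) := by
        rw [Finset.disjoint_left]
        intro x hx hx'
        rw [Finset.mem_Icc] at hx
        rw [Finset.mem_Ico] at hx'
        omega
      rw [hR, Finset.mul_sum, hun, Finset.sum_union hdis]
      push_cast
      congr 1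
      · refine Finset.sum_congr rfl fun t ht => ?_
        obtain ⟨ht1, ht2⟩ := Finset.mem_Icc.1 ht
        have h4 : (c t : ℚ) = (p : ℚ) ^ (t - a) * (e t : ℚ) := by exact_mod_cast hce t ht1 ht2
        have h5 : (p : ℚ) ^ t = (p : ℚ) ^ a * (p : ℚ) ^ (t - a) := by
          rw [← pow_add, Nat.add_sub_cancel' ht1]
        rw [h4, div_pow, h5]
        field_simp
      · refine Finset.sum_congr rfl fun t ht => ?_
        obtain ⟨ht1, ht2⟩ := Finset.mem_Ico.1 ht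
        have h5 : (p : ℚ) ^ a = (p : ℚ) ^ t * (p : ℚ) ^ (a - t) := by
          rw [← pow_add, Nat.add_sub_cancel' ht2.le]
        rw [div_pow, h5]
        field_simp
    have h6 : padicNorm p (∑ t ∈ Finset.Ico 1 a, (c t : ℚ) * (m : ℚ) ^ t * (p : ℚ) ^ (a - t)) ≤
        (p : ℚ) ^ (-(1 : ℕ) : ℤ) := by
      refine padicNorm.sum_le' (fun t ht => ?_) hnn
      obtain ⟨ht1, ht2⟩ := Finset.mem_Ico.1 ht
      rw [padicNorm.mul, padicNorm.mul]
      have h7 : padicNorm p (c t : ℚ) ≤ 1 := padicNorm.of_int _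
      have h8 : padicNorm p ((m : ℚ) ^ t) ≤ 1 := by
        rw [hpow]
        exact pow_le_one₀ (padicNorm.nonneg _) (padicNorm.of_nat _)
      calc padicNorm p (c t : ℚ) * padicNorm p ((m : ℚ) ^ t) * padicNorm p ((p : ℚ) ^ (a - t))
          ≤ (1 * 1) * (p : ℚ) ^ (-(1 : ℕ) : ℤ) :=
            mul_le_mul (mul_le_mul h7 h8 (padicNorm.nonneg _) zero_le_one) (hppow _ (by omega))
              (padicNorm.nonneg _) (by norm_num)
        _ = _ := by ring
    have h9 : padicNorm p ((∑ t ∈ Finset.Icc a b, e t * (m : ℤ) ^ t : ℤ) : ℚ) ≤ (p : ℚ) ^ (-(1 : ℕ) : ℤ) := by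
      have h10 : ((∑ t ∈ Finset.Icc a b, e t * (m : ℤ) ^ t : ℤ) : ℚ) = (p : ℚ) ^ a * R +
          -(∑ t ∈ Finset.Ico 1 a, (c t : ℚ) * (m : ℚ) ^ t * (p : ℚ) ^ (a - t)) := by
        rw [h3]; ring
      rw [h10]
      refine (padicNorm.nonarchimedean).trans (max_le h2 ?_)
      rw [padicNorm.neg]
      exact h6
    have h11 := (padicNorm.dvd_iff_norm_le (p := p) (n := 1) (z := ∑ t ∈ Finset.Icc a b, e t * (m : ℤ) ^ t)).2 h9
    simpa using h11
  have hinc : ∀ s ∈ Finset.Icc a b, ∀ t ∈ Finset.Icc a b, s % (p - 1) = t % (p - 1) → s = t := by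
    intro s hs t ht hst
    rw [Finset.mem_Icc] at hs ht
    by_contra hne
    rcases Nat.lt_or_gt_of_ne hne with h | h
    · have h1 : (p - 1) ∣ t - s := (Nat.modEq_iff_dvd' h.le).1 hst
      have h2 := Nat.le_of_dvd (by omega) h1
      omega
    · have h1 : (p - 1) ∣ s - t := (Nat.modEq_iff_dvd' h.le).1 hst.symm
      have h2 := Nat.le_of_dvd (by omega) h1
      omega
  have hall := poly_zero p (Finset.Icc a b) hinc e hdvd
  intro t ht1 ht2
  obtain ⟨f, hf⟩ := hall t (Finset.mem_Icc.2 ⟨ht1, ht2⟩)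
  rw [hce t ht1 ht2, hf, pow_succ]
  exact ⟨f, by ring⟩

/-- the top coefficient is divisible by `p ^ min (p - 1) b` -/
theorem top_dvd (p : ℕ) [hp : Fact p.Prime] (b : ℕ) (c : ℕ → ℤ)
    (h0 : ∀ m : ℕ, p < m → m < 2 * p → ∑ t ∈ Finset.Icc 1 b, (c t : ℚ) * ∑ n ∈ Finset.Ico 1 m, ((m : ℚ) / n) ^ t = 0) :
    ∀ j : ℕ, j ≤ p - 1 → j ≤ b → (p : ℤ) ^ j ∣ c b := by
  have key : ∀ j : ℕ, j ≤ p - 1 → j ≤ b → ∀ t, b - j ≤ t → t ≤ b → (p : ℤ) ^ (t - (b - j)) ∣ c t := by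
    intro j
    induction j with
    | zero =>
      intro _ _ t h1 h2
      have : t - (b - 0) = 0 := by omega
      rw [this, pow_zero]
      exact one_dvd _
    | succ j ih =>
      intro h1 h2 t h3 h4
      rcases Nat.lt_or_ge t (b - j) with h5 | h5
      · have : t - (b - (j + 1)) = 0 := by omega
        rw [this, pow_zero]
        exact one_dvd _
      · have h6 := step_dvd p b c h0 j h1 h2 (ih (by omega) (by omega)) t h5 h4
        have : t - (b - (j + 1)) = t - (b - j) + 1 := by omega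
        rw [this]
        exact h6
  intro j h1 h2
  have h3 := key j h1 h2 b (by omega) (le_refl b)
  have : b - (b - j) = j := by omega
  rwa [this] at h3

/-- Chebyshev: the primes in `(n / 8, n]` -/
theorem theta_window : ∃ n1 : ℕ, 16 ≤ n1 ∧ ∀ n : ℕ, n1 ≤ n →
    (n : ℝ) / 4 ≤ ∑ p ∈ (Finset.Ioc (n / 8) n).filter Nat.Prime, Real.log p := by
  have h1 : Filter.Tendsto (fun n : ℕ => Real.log n / (n : ℝ) ^ (1 / 2 : ℝ)) Filter.atTop (nhds 0) := by
    have h := (isLittleO_log_rpow_atTop (show (0 : ℝ) < 1 / 2 by norm_num)).tendsto_div_nhds_zero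
    exact h.comp tendsto_natCast_atTop_atTop
  obtain ⟨n1, hn1⟩ := Filter.eventually_atTop.1 (h1.eventually (gt_mem_nhds (show (0 : ℝ) < 1 / 20 by norm_num)))
  refine ⟨max n1 400, (by norm_num : 16 ≤ 400).trans (le_max_right _ _), fun n hn => ?_⟩
  have hn400 : 400 ≤ n := (le_max_right _ _).trans hn
  have hnr : (400 : ℝ) ≤ n := by exact_mod_cast hn400
  have a1 := hn1 n ((le_max_left _ _).trans hn)
  rw [div_lt_iff₀ (by positivity), ← Real.sqrt_eq_rpow] at a1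
  have hsq : √(n : ℝ) * √(n : ℝ) = n := Real.mul_self_sqrt (by positivity)
  have hsq20 : 20 ≤ √(n : ℝ) := by
    rw [Real.le_sqrt (by norm_num) (by positivity)]
    linarith
  have b1 := Chebyshev.theta_ge n
  have b2 := Chebyshev.theta_le_log4_mul_x (x := (n : ℝ) / 8) (by positivity)
  have hl4 : Real.log 4 = 2 * Real.log 2 := by
    rw [show (4 : ℝ) = 2 ^ 2 by norm_num, Real.log_pow]
    norm_num
  have hl2 := Real.log_two_gt_d9
  have hl2' := Real.log_two_lt_d9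
  have b3 : Real.log ((n : ℝ) + 1) ≤ √(n : ℝ) := by
    have h2 : Real.log ((n : ℝ) + 1) ≤ Real.log (2 * n) := Real.log_le_log (by linarith) (by linarith)
    rw [Real.log_mul (by norm_num) (by linarith)] at h2
    linarith
  have b4 : 2 * √(n : ℝ) * Real.log n ≤ n / 10 := by
    have : 2 * √(n : ℝ) * Real.log n ≤ 2 * √(n : ℝ) * (1 / 20 * √(n : ℝ)) :=
      mul_le_mul_of_nonneg_left a1.le (by positivity)
    linarith
  have b5 : √(n : ℝ) ≤ n / 20 := by nlinarith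
  have hsum : Chebyshev.theta n ≤ Chebyshev.theta ((n : ℝ) / 8) + ∑ p ∈ (Finset.Ioc (n / 8) n).filter Nat.Prime, Real.log p := by
    rw [Chebyshev.theta_eq_sum_Icc, Chebyshev.theta_eq_sum_Icc, Nat.floor_natCast]
    have hfl : ⌊(n : ℝ) / 8⌋₊ = n / 8 := by
      have := Nat.floor_div_natCast (K := ℝ) (n : ℝ) 8
      rw [Nat.floor_natCast] at this
      exact_mod_cast this
    rw [hfl]
    have hun : (Finset.Icc 0 n).filter Nat.Prime ⊆ (Finset.Icc 0 (n / 8)).filter Nat.Prime ∪ (Finset.Ioc (n / 8) n).filter Nat.Prime := by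
      intro x hx
      simp only [Finset.mem_filter, Finset.mem_Icc, Finset.mem_union, Finset.mem_Ioc] at hx ⊢
      by_cases h : x ≤ n / 8
      · left; exact ⟨⟨Nat.zero_le _, h⟩, hx.2⟩
      · right; exact ⟨⟨by omega, hx.1.2⟩, hx.2⟩
    have hdis : Disjoint ((Finset.Icc 0 (n / 8)).filter Nat.Prime) ((Finset.Ioc (n / 8) n).filter Nat.Prime) := by
      rw [Finset.disjoint_left]
      intro x hx hx'
      simp only [Finset.mem_filter, Finset.mem_Icc, Finset.mem_Ioc] at hx hx'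
      omega
    rw [← Finset.sum_union hdis]
    exact Finset.sum_le_sum_of_subset_of_nonneg hun fun x hx _ => by
      have : 1 ≤ x := by
        simp only [Finset.mem_union, Finset.mem_filter] at hx
        rcases hx with h | h
        · exact h.2.one_le
        · exact h.2.one_le
      exact Real.log_nonneg (by exact_mod_cast this)
  rw [hl4] at b2
  nlinarith

end Pool.Agent.W2helper67.DZ
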