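import Mathlib
import Pool.Agent.W2helper67.DZ.D

/-!
# The main theorem for all `B ≤ κ k`
-/

set_option autoImplicit false

namespace Pool.Agent.W2helper67.DZ

open Finset

theorem gR_cast (T : Finset ℕ) (c : ℕ → ℤ) (m : ℕ) (h : gR 0 T c m = 0) :
    ∑ t ∈ T, (c t : ℚ) * ∑ n ∈ Finset.Ico 1 m, ((m : ℚ) / n) ^ t = 0 := by
  rw [gR, Int.cast_zero, zero_add] at h
  have h5 : ((∑ t ∈ T, (c t : ℚ) * ∑ n ∈ Finset.Ico 1 m, ((m : ℚ) / n) ^ t : ℚ) : ℝ) = 0 := by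
    rw [← h]
    push_cast
    rfl
  exact_mod_cast h5

/-- if the first `m0 - 1` sums vanish then the top coefficient is at least `exp (m0 ^ 2 / 576)` -/
theorem height (n1 : ℕ) (hn1 : 16 ≤ n1)
    (hw : ∀ n : ℕ, n1 ≤ n → (n : ℝ) / 4 ≤ ∑ p ∈ (Finset.Ioc (n / 8) n).filter Nat.Prime, Real.log p)
    (b m0 : ℕ) (c : ℕ → ℤ) (hcb : c b ≠ 0) (hm0 : n1 ≤ m0 / 2) (hm0b : m0 ≤ 4 * b)
    (h0 : ∀ m : ℕ, 1 ≤ m → m < m0 → gR 0 (Finset.Icc 1 b) c m = 0) :
    (m0 : ℝ) ^ 2 / 576 ≤ Real.log |(c b : ℝ)| := by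
  set n : ℕ := m0 / 2 with hn
  set P : Finset ℕ := (Finset.Ioc (n / 8) n).filter Nat.Prime with hP
  have hdvd : (∏ p ∈ P, (p : ℤ) ^ (n / 8)) ∣ c b := by
    apply Finset.prod_dvd_of_coprime
    · intro p hp q hq hpq
      rw [Finset.mem_coe, hP, Finset.mem_filter] at hp hq
      exact IsCoprime.pow (Nat.isCoprime_iff_coprime.2 ((Nat.coprime_primes hp.2 hq.2).2 hpq))
    · intro p hp
      rw [hP, Finset.mem_filter, Finset.mem_Ioc] at hp
      have : Fact p.Prime := ⟨hp.2⟩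
      apply top_dvd p b c _ (n / 8) (by omega) (by omega)
      intro m h1 h2
      exact gR_cast _ _ _ (h0 m (by omega) (by omega))
  have h1 := Int.le_of_dvd (abs_pos.2 hcb) ((dvd_abs _ _).2 hdvd)
  have h2 : (∏ p ∈ P, (p : ℝ) ^ (n / 8)) ≤ |(c b : ℝ)| := by
    have h3 : ((∏ p ∈ P, (p : ℤ) ^ (n / 8) : ℤ) : ℝ) ≤ ((|c b| : ℤ) : ℝ) := by exact_mod_cast h1
    push_cast at h3
    exact h3
  have hPpos : ∀ p ∈ P, (0 : ℝ) < (p : ℝ) := by
    intro p hp
    rw [hP, Finset.mem_filter] at hp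
    exact_mod_cast hp.2.pos
  have h4 : Real.log (∏ p ∈ P, (p : ℝ) ^ (n / 8)) = ((n / 8 : ℕ) : ℝ) * ∑ p ∈ P, Real.log p := by
    rw [Real.log_prod (fun p hp => (pow_pos (hPpos p hp) _).ne'), Finset.mul_sum]
    refine Finset.sum_congr rfl fun p _ => ?_
    rw [Real.log_pow]
  have h5 : Real.log (∏ p ∈ P, (p : ℝ) ^ (n / 8)) ≤ Real.log |(c b : ℝ)| :=
    Real.log_le_log (Finset.prod_pos fun p hp => pow_pos (hPpos p hp) _) h2
  have h6 := hw n hm0
  rw [← hP] at h6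
  have hn16 : (16 : ℝ) ≤ n := by exact_mod_cast hn1.trans hm0
  have h7 : (n : ℝ) / 16 ≤ ((n / 8 : ℕ) : ℝ) := by
    have h8 : n ≤ 8 * (n / 8) + 7 := by omega
    have h9 : (n : ℝ) ≤ 8 * ((n / 8 : ℕ) : ℝ) + 7 := by exact_mod_cast h8
    linarith
  have h10 : (n : ℝ) / 16 * (n / 4) ≤ ((n / 8 : ℕ) : ℝ) * ∑ p ∈ P, Real.log p :=
    mul_le_mul h7 h6 (by positivity) (by positivity)
  have h11 : (m0 : ℝ) ≤ 3 * n := by
    have : m0 ≤ 3 * n := by omega
    exact_mod_cast this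
  have h12 : (m0 : ℝ) ^ 2 ≤ 9 * (n : ℝ) ^ 2 := by
    have : (0 : ℝ) ≤ m0 := Nat.cast_nonneg _
    nlinarith
  rw [h4] at h5
  nlinarith

/-- the case of a nonzero top coefficient -/
theorem star_b : ∃ κ : ℝ, 0 < κ ∧ κ < 1 ∧ ∀ B b k : ℕ, 1 ≤ b → b ≤ B → (B : ℝ) ≤ κ * k →
    ∀ (d : ℤ) (c : ℕ → ℤ), c b ≠ 0 → |(d : ℝ)| ≤ Real.exp (κ * k / B) →
    (∀ t ∈ Finset.Icc 1 b, |(c t : ℝ)| ≤ Real.exp (κ * k / B)) →
    ∃ M : ℕ, 2 ≤ M ∧ M ≤ 4 * b ∧ (M : ℝ) ^ 2 ≤ k / B ∧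
      ((M : ℝ) ^ k)⁻¹ ≤ |(d : ℝ) * zt k + ∑ t ∈ Finset.Icc 1 b, (c t : ℝ) * dz (k - t) t| := by
  classical
  obtain ⟨n1, hn1, hw⟩ := theta_window
  set A : ℝ := 2 * n1 + 3 with hA
  have hA1 : 1 ≤ A := by rw [hA]; have : (0 : ℝ) ≤ n1 := Nat.cast_nonneg _; linarith
  set κ : ℝ := 1 / (4 + 34 * A ^ 2 + 19584) with hκ
  have hden : 0 < 4 + 34 * A ^ 2 + 19584 := by positivity
  have hκpos : 0 < κ := by rw [hκ]; positivity
  have hκ1 : κ < 1 := by
    rw [hκ, div_lt_one hden]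
    nlinarith
  have hκeq : κ * (4 + 34 * A ^ 2 + 19584) = 1 := by
    rw [hκ]
    field_simp
  refine ⟨κ, hκpos, hκ1, fun B b k hb hbB hBk d c hcb hd hc => ?_⟩
  have hbr : (1 : ℝ) ≤ b := by exact_mod_cast hb
  have hbBr : (b : ℝ) ≤ B := by exact_mod_cast hbB
  have hBr : (1 : ℝ) ≤ B := hbr.trans hbBr
  have hkpos : (0 : ℝ) < k := by
    by_contra hk
    have : κ * k ≤ 0 := by nlinarith
    linarith
  set h : ℝ := κ * k / B with hh
  have hhB : h * B = κ * k := by rw [hh]; field_simp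
  have hhpos : 0 ≤ h := by rw [hh]; positivity
  have hhcb : Real.log |(c b : ℝ)| ≤ h := by
    rw [Real.log_le_iff_le_exp (abs_pos.2 (by exact_mod_cast hcb))]
    exact hc b (Finset.mem_Icc.2 ⟨hb, le_refl b⟩)
  obtain ⟨p, hp, hp1, hp2⟩ := Nat.exists_prime_lt_and_le_two_mul b (by omega)
  have hinc : ∀ s ∈ Finset.Icc 1 b, ∀ t ∈ Finset.Icc 1 b, s % (p - 1) = t % (p - 1) → s = t := by
    intro s hs t ht hst
    rw [Finset.mem_Icc] at hs ht
    by_contra hne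
    rcases Nat.lt_or_gt_of_ne hne with h | h
    · have h1 : (p - 1) ∣ t - s := (Nat.modEq_iff_dvd' h.le).1 hst
      have h2 := Nat.le_of_dvd (by omega) h1
      omega
    · have h1 : (p - 1) ∣ s - t := (Nat.modEq_iff_dvd' h.le).1 hst.symm
      have h2 := Nat.le_of_dvd (by omega) h1
      omega
  obtain ⟨m1, hm11, hm12, hm1ne⟩ := exists_gR p hp (Finset.Icc 1 b) (fun t ht => (Finset.mem_Icc.1 ht).1) hinc d c
    (Or.inr ⟨b, Finset.mem_Icc.2 ⟨hb, le_refl b⟩, hcb⟩)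
  have hex : ∃ m : ℕ, 1 ≤ m ∧ gR d (Finset.Icc 1 b) c m ≠ 0 := ⟨m1, hm11, hm1ne⟩
  set m0 := Nat.find hex with hm0def
  obtain ⟨hm01, hm0ne⟩ := Nat.find_spec hex
  have hm0min : ∀ m, 1 ≤ m → m < m0 → gR d (Finset.Icc 1 b) c m = 0 := by
    intro m h1 h2
    by_contra h3
    exact Nat.find_min hex h2 ⟨h1, h3⟩
  have hm0le : m0 ≤ m1 := Nat.find_min' hex ⟨hm11, hm1ne⟩
  have hm0b : m0 + 1 ≤ 4 * b := by omega
  -- size of `m0`
  have hsize : ((m0 + 1 : ℕ) : ℝ) ≤ A + 24 * √h := by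
    rcases Nat.lt_or_ge (m0 / 2) n1 with hlt | hge
    · have h1 : m0 + 1 ≤ 2 * n1 + 3 := by omega
      have h2 : ((m0 + 1 : ℕ) : ℝ) ≤ A := by rw [hA]; exact_mod_cast h1
      have : 0 ≤ √h := Real.sqrt_nonneg h
      linarith
    · have hd0 : d = 0 := by
        have h1 := hm0min 1 (le_refl 1) (by omega)
        rw [gR] at h1
        simp only [Finset.Ico_self, Finset.sum_empty, mul_zero, Finset.sum_const_zero, add_zero] at h1
        exact_mod_cast h1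
      have h2 := height n1 hn1 hw b m0 c hcb hge (by omega) (by
        intro m h3 h4
        have := hm0min m h3 h4
        rwa [hd0] at this)
      have h3 : (m0 : ℝ) ^ 2 ≤ 576 * h := by linarith
      have h4 : (m0 : ℝ) ≤ 24 * √h := by
        have h5 : (m0 : ℝ) = √((m0 : ℝ) ^ 2) := (Real.sqrt_sq (Nat.cast_nonneg _)).symm
        rw [h5]
        calc √((m0 : ℝ) ^ 2) ≤ √(576 * h) := Real.sqrt_le_sqrt h3
          _ = 24 * √h := by
              rw [Real.sqrt_mul (by norm_num)]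
              congr 1
              rw [show (576 : ℝ) = 24 ^ 2 by norm_num]
              exact Real.sqrt_sq (by norm_num)
      push_cast
      linarith
  set M : ℕ := m0 + 1 with hM
  have hM2 : 2 ≤ M := by omega
  have hMr : (2 : ℝ) ≤ M := by exact_mod_cast hM2
  have hM4 : (M : ℝ) ≤ 4 * b := by exact_mod_cast hm0b
  have hMsq : (M : ℝ) ^ 2 ≤ 2 * A ^ 2 + 1152 * h := by
    have h1 : √h * √h = h := Real.mul_self_sqrt hhpos
    have h2 : 0 ≤ √h := Real.sqrt_nonneg h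
    have h3 : (M : ℝ) ^ 2 ≤ (A + 24 * √h) ^ 2 := pow_le_pow_left₀ (by linarith) hsize 2
    nlinarith [sq_nonneg (A - 24 * √h)]
  have hMB : (M : ℝ) ^ 2 * B ≤ (2 * A ^ 2 + 1152) * (κ * k) := by
    have h1 : (M : ℝ) ^ 2 * B ≤ (2 * A ^ 2 + 1152 * h) * B := mul_le_mul_of_nonneg_right hMsq (by linarith)
    have h2 : (2 * A ^ 2 + 1152 * h) * B = 2 * A ^ 2 * B + 1152 * (h * B) := by ring
    rw [h2, hhB] at h1
    have h3 : 2 * A ^ 2 * B ≤ 2 * A ^ 2 * (κ * k) := mul_le_mul_of_nonneg_left hBk (by positivity)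
    linarith
  have hκk : 0 < κ * k := by positivity
  have hkk : (k : ℝ) = (4 + 34 * A ^ 2 + 19584) * (κ * k) := by
    calc (k : ℝ) = 1 * k := (one_mul _).symm
      _ = (κ * (4 + 34 * A ^ 2 + 19584)) * k := by rw [hκeq]
      _ = _ := by ring
  refine ⟨M, hM2, hm0b, ?_, ?_⟩
  · rw [le_div_iff₀ (by linarith)]
    refine hMB.trans ?_
    nlinarith
  · have hcond : Real.log (4 * Real.exp h * ((Finset.Icc 1 b).card + 1)) + (b + 3) * Real.log M + 6 * M * b ≤ k / M := by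
      rw [Nat.card_Icc, Nat.add_sub_cancel]
      have hlog : Real.log (4 * Real.exp h * ((b : ℝ) + 1)) = Real.log (4 * ((b : ℝ) + 1)) + h := by
        have : 4 * Real.exp h * ((b : ℝ) + 1) = (4 * ((b : ℝ) + 1)) * Real.exp h := by ring
        rw [this, Real.log_mul (by positivity) (Real.exp_ne_zero _), Real.log_exp]
      rw [hlog, le_div_iff₀ (by linarith)]
      have h1 : Real.log (4 * ((b : ℝ) + 1)) ≤ 7 * M * b := by
        have := Real.log_le_sub_one_of_pos (show (0 : ℝ) < 4 * ((b : ℝ) + 1) by positivity)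
        nlinarith
      have h2 : ((b : ℝ) + 3) * Real.log M ≤ 4 * M * b := by
        have h3 := Real.log_le_sub_one_of_pos (show (0 : ℝ) < (M : ℝ) by linarith)
        have h4 : 0 ≤ Real.log (M : ℝ) := Real.log_nonneg (by linarith)
        calc ((b : ℝ) + 3) * Real.log M ≤ (4 * b) * M := mul_le_mul (by linarith) (by linarith) h4 (by linarith)
          _ = 4 * M * b := by ring
      have h5 : (Real.log (4 * ((b : ℝ) + 1)) + h + (b + 3) * Real.log M + 6 * M * b) * M ≤ (h + 17 * M * b) * M := by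
        apply mul_le_mul_of_nonneg_right _ (by linarith)
        linarith
      have h6 : (h + 17 * M * b) * M = h * M + 17 * ((M : ℝ) ^ 2 * b) := by ring
      have h7 : h * M ≤ 4 * (κ * k) := by
        calc h * M ≤ h * (4 * B) := mul_le_mul_of_nonneg_left (by linarith) hhpos
          _ = 4 * (h * B) := by ring
          _ = 4 * (κ * k) := by rw [hhB]
      have h8 : (M : ℝ) ^ 2 * b ≤ (2 * A ^ 2 + 1152) * (κ * k) :=
        (mul_le_mul_of_nonneg_left hbBr (by positivity)).trans hMB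
      rw [h6] at h5
      refine h5.trans ?_
      rw [hkk]
      nlinarith
    have hk3 : b + 3 ≤ k := by
      have h1 : (4 : ℝ) + 19584 ≤ 4 + 34 * A ^ 2 + 19584 := by nlinarith
      have h2 : 19588 * (b : ℝ) ≤ k := by
        rw [hkk]
        calc 19588 * (b : ℝ) ≤ 19588 * (κ * k) := by linarith
          _ ≤ (4 + 34 * A ^ 2 + 19584) * (κ * k) := mul_le_mul_of_nonneg_right (by linarith) hκk.le
      have h3 : ((b + 3 : ℕ) : ℝ) ≤ k := by push_cast; linarith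
      exact_mod_cast h3
    exact main_bound k d (Finset.Icc 1 b) c (Real.exp h) b M (Real.one_le_exp hhpos) hd hc
      (fun t ht => (Finset.mem_Icc.1 ht).2) m0 hm01 (le_refl _) hm0ne hk3 hcond

theorem one_le_zt (k : ℕ) (hk : 2 ≤ k) : 1 ≤ zt k := by
  have h := (summable_zt k hk).sum_le_tsum {0} (fun i _ => by positivity)
  rw [Finset.sum_singleton] at h
  rw [zt]
  simpa using h

/-- **Main theorem**, all `B ≤ κ k`. -/
theorem star : ∃ κ : ℝ, 0 < κ ∧ ∀ B k : ℕ, 1 ≤ B → (B : ℝ) ≤ κ * k →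
    ∀ (d : ℤ) (c : ℕ → ℤ), (d ≠ 0 ∨ ∃ t ∈ Finset.Icc 1 B, c t ≠ 0) → |(d : ℝ)| ≤ Real.exp (κ * k / B) →
    (∀ t ∈ Finset.Icc 1 B, |(c t : ℝ)| ≤ Real.exp (κ * k / B)) →
    ((min (4 * (B : ℝ)) (√(k / B))) ^ k)⁻¹ ≤
      |(d : ℝ) * zt k + ∑ t ∈ Finset.Icc 1 B, (c t : ℝ) * dz (k - t) t| := by
  classical
  obtain ⟨κ, hκ, hκ1, hmain⟩ := star_b
  refine ⟨κ, hκ, fun B k hB hBk d c hne hd hc => ?_⟩
  have hBr : (1 : ℝ) ≤ B := by exact_mod_cast hB
  have hkB : (B : ℝ) < k := by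
    have hk0 : (0 : ℝ) < k := by
      by_contra hk
      have : κ * k ≤ 0 := by nlinarith
      linarith
    nlinarith
  by_cases hall : ∀ t ∈ Finset.Icc 1 B, c t = 0
  · have hd0 : d ≠ 0 := by
      rcases hne with h | ⟨t, ht, h⟩
      · exact h
      · exact absurd (hall t ht) h
    have h1 : ∑ t ∈ Finset.Icc 1 B, (c t : ℝ) * dz (k - t) t = 0 :=
      Finset.sum_eq_zero fun t ht => by rw [hall t ht, Int.cast_zero, zero_mul]
    rw [h1, add_zero, abs_mul]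
    have h2 : (1 : ℝ) ≤ |(d : ℝ)| := by exact_mod_cast Int.one_le_abs hd0
    have hk2 : 2 ≤ k := by
      have : B < k := by exact_mod_cast hkB
      omega
    have h3 : 1 ≤ |zt k| := (one_le_zt k hk2).trans (le_abs_self _)
    have h4 : 1 ≤ min (4 * (B : ℝ)) (√(k / B)) := by
      apply le_min (by linarith)
      rw [Real.one_le_sqrt, one_le_div (by linarith)]
      exact hkB.le
    calc ((min (4 * (B : ℝ)) (√(k / B))) ^ k)⁻¹ ≤ 1 := inv_le_one_of_one_le₀ (one_le_pow₀ h4)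
      _ ≤ |(d : ℝ)| * |zt k| := by nlinarith
  · push Not at hall
    obtain ⟨t0, ht0, hct0⟩ := hall
    set S : Finset ℕ := (Finset.Icc 1 B).filter fun t => c t ≠ 0 with hS
    have hSne : S.Nonempty := ⟨t0, Finset.mem_filter.2 ⟨ht0, hct0⟩⟩
    set b : ℕ := S.max' hSne with hb
    have hbS : b ∈ S := S.max'_mem hSne
    rw [hS, Finset.mem_filter, Finset.mem_Icc] at hbS
    have hzero : ∀ t, b < t → t ≤ B → c t = 0 := by
      intro t h1 h2
      by_contra h3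
      have h4 : t ∈ S := Finset.mem_filter.2 ⟨Finset.mem_Icc.2 ⟨by omega, h2⟩, h3⟩
      have := S.le_max' t h4
      omega
    obtain ⟨M, hM2, hMb, hMsq, hMF⟩ := hmain B b k hbS.1.1 hbS.1.2 hBk d c hbS.2 hd
      (fun t ht => hc t (Finset.mem_Icc.2 ⟨(Finset.mem_Icc.1 ht).1, (Finset.mem_Icc.1 ht).2.trans hbS.1.2⟩))
    have hsum : ∑ t ∈ Finset.Icc 1 B, (c t : ℝ) * dz (k - t) t = ∑ t ∈ Finset.Icc 1 b, (c t : ℝ) * dz (k - t) t := by
      symm
      apply Finset.sum_subset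
      · exact Finset.Icc_subset_Icc_right hbS.1.2
      · intro t ht1 ht2
        rw [Finset.mem_Icc] at ht1 ht2
        rw [hzero t (by omega) ht1.2, Int.cast_zero, zero_mul]
    rw [hsum]
    refine le_trans ?_ hMF
    have hMr : (2 : ℝ) ≤ M := by exact_mod_cast hM2
    apply inv_anti₀ (by positivity)
    apply pow_le_pow_left₀ (by linarith)
    apply le_min
    · have h1 : (M : ℝ) ≤ 4 * b := by exact_mod_cast hMb
      have h2 : (b : ℝ) ≤ B := by exact_mod_cast hbS.1.2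
      linarith
    · exact Real.le_sqrt_of_sq_le hMsq

end Pool.Agent.W2helper67.DZ
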