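import Mathlib
import Pool.Agent.W2helper67.DZ.D

/-!
# Double zeta values whose arguments are close to rational rays
-/

set_option autoImplicit false

namespace Pool.Agent.W2helper67.DZ

open Finset

/-- the term with the pair `(m, n)` of the ray `u`; the diagonal is put on the ray `1` -/
noncomputable def aa (K b E : ℕ) (d : ℤ) (c : ℕ → ℕ → ℤ) (u : ℕ) (x : ℕ × ℕ) : ℝ :=
  if x.1 = 0 ∨ x.2 = 0 then 0
  else if x.2 < x.1 then ∑ i ∈ Finset.range (E + 1),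
    (c u i : ℝ) * (1 / ((x.2 : ℝ) ^ ((K - u) * b + E - i)) / (x.1 : ℝ) ^ (u * b + i))
  else if x.1 = x.2 ∧ u = 1 then (d : ℝ) * (1 / (x.1 : ℝ) ^ (K * b + E))
  else 0

/-- the value `m ^ u n ^ (K - u)` -/
def vv (K u : ℕ) (x : ℕ × ℕ) : ℕ := x.1 ^ u * x.2 ^ (K - u)

/-- the weight `1 / (m n) ^ 2` -/
noncomputable def ww (x : ℕ × ℕ) : ℝ := (1 / (x.1 : ℝ) ^ 2) * (1 / (x.2 : ℝ) ^ 2)

theorem ww_summable : Summable ww := by
  have h := (Real.summable_one_div_nat_pow (p := 2)).2 (by omega)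
  exact h.mul_of_nonneg h (fun _ => by positivity) (fun _ => by positivity)

theorem ww_tsum : ∑' x, ww x ≤ 4 := by
  have h := (Real.summable_one_div_nat_pow (p := 2)).2 (by omega)
  have h1 := h.tsum_mul_tsum h ww_summable
  have h2 : ∑' n : ℕ, 1 / (n : ℝ) ^ 2 = Real.pi ^ 2 / 6 := hasSum_zeta_two.tsum_eq
  have h3 : ∑' x, ww x = (∑' n : ℕ, 1 / (n : ℝ) ^ 2) * ∑' n : ℕ, 1 / (n : ℝ) ^ 2 := h1.symm
  rw [h3, h2]
  have h4 : Real.pi ^ 2 / 6 ≤ 2 := by
    have := Real.pi_lt_d2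
    have := Real.pi_pos
    nlinarith
  have h5 : 0 ≤ Real.pi ^ 2 / 6 := by positivity
  nlinarith

theorem ww_nonneg (x : ℕ × ℕ) : 0 ≤ ww x := by
  unfold ww
  positivity

/-- `|a (m, n)| ≤ H (E + 1) / (m ^ u n ^ (K - u)) ^ b` -/
theorem aa_le (K b E : ℕ) (d : ℤ) (c : ℕ → ℕ → ℤ) (u : ℕ) (hu : u < K) (H : ℝ) (hH : 0 ≤ H)
    (hd : |(d : ℝ)| ≤ H) (hc : ∀ i ≤ E, |(c u i : ℝ)| ≤ H) (x : ℕ × ℕ) :
    |aa K b E d c u x| ≤ H * (E + 1) * (1 / (vv K u x : ℝ) ^ b) := by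
  unfold aa
  by_cases h0 : x.1 = 0 ∨ x.2 = 0
  · rw [if_pos h0, abs_zero]
    positivity
  rw [if_neg h0]
  push Not at h0
  have hm : (1 : ℝ) ≤ x.1 := by exact_mod_cast Nat.one_le_iff_ne_zero.2 h0.1
  have hn : (1 : ℝ) ≤ x.2 := by exact_mod_cast Nat.one_le_iff_ne_zero.2 h0.2
  have hx1 : (0 : ℝ) < x.1 := by linarith
  have hx2 : (0 : ℝ) < x.2 := by linarith
  have hv : (vv K u x : ℝ) = (x.1 : ℝ) ^ u * (x.2 : ℝ) ^ (K - u) := by
    unfold vv
    push_cast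
    rfl
  have hvb : (vv K u x : ℝ) ^ b = (x.1 : ℝ) ^ (u * b) * (x.2 : ℝ) ^ ((K - u) * b) := by
    rw [hv, mul_pow, ← pow_mul, ← pow_mul]
  rw [hvb]
  by_cases h1 : x.2 < x.1
  · rw [if_pos h1]
    calc |∑ i ∈ Finset.range (E + 1), (c u i : ℝ) * (1 / ((x.2 : ℝ) ^ ((K - u) * b + E - i)) / (x.1 : ℝ) ^ (u * b + i))|
        ≤ ∑ i ∈ Finset.range (E + 1), H * (1 / ((x.1 : ℝ) ^ (u * b) * (x.2 : ℝ) ^ ((K - u) * b))) := by
          refine (Finset.abs_sum_le_sum_abs _ _).trans (Finset.sum_le_sum fun i hi => ?_)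
          have hi' : i ≤ E := by have := Finset.mem_range.1 hi; omega
          rw [abs_mul]
          refine mul_le_mul (hc i hi') ?_ (abs_nonneg _) hH
          rw [abs_of_nonneg (by positivity), div_div]
          apply one_div_le_one_div_of_le (by positivity)
          rw [mul_comm ((x.1 : ℝ) ^ (u * b))]
          exact mul_le_mul (pow_le_pow_right₀ hn (by omega)) (pow_le_pow_right₀ hm (by omega)) (by positivity) (by positivity)
      _ = H * (E + 1) * (1 / ((x.1 : ℝ) ^ (u * b) * (x.2 : ℝ) ^ ((K - u) * b))) := by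
          rw [Finset.sum_const, Finset.card_range, nsmul_eq_mul]
          push_cast
          ring
  · rw [if_neg h1]
    by_cases h2 : x.1 = x.2 ∧ u = 1
    · rw [if_pos h2, abs_mul]
      have h3 : |1 / (x.1 : ℝ) ^ (K * b + E)| ≤ 1 / ((x.1 : ℝ) ^ (u * b) * (x.2 : ℝ) ^ ((K - u) * b)) := by
        rw [abs_of_nonneg (by positivity)]
        apply one_div_le_one_div_of_le (by positivity)
        rw [← h2.1, ← pow_add, ← add_mul]
        have : u + (K - u) = K := by omega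
        rw [this]
        exact pow_le_pow_right₀ hm (by omega)
      have h4 : (0 : ℝ) ≤ E := Nat.cast_nonneg E
      calc |(d : ℝ)| * |1 / (x.1 : ℝ) ^ (K * b + E)|
          ≤ (H * (E + 1)) * (1 / ((x.1 : ℝ) ^ (u * b) * (x.2 : ℝ) ^ ((K - u) * b))) :=
            mul_le_mul (hd.trans (by nlinarith)) h3 (abs_nonneg _) (by positivity)
        _ = _ := rfl
    · rw [if_neg h2, abs_zero]
      positivity

/-- if `m ^ u n ^ (K - u) ≥ M` then `1 / (m ^ u n ^ (K - u)) ^ b ≤ ww / M ^ (b - 2)` -/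
theorem pow_ww (K u b : ℕ) (hu1 : 1 ≤ u) (hu : u < K) (hb : 2 ≤ b) (M : ℕ) (hM : 1 ≤ M) (x : ℕ × ℕ)
    (hx1 : x.1 ≠ 0) (hx2 : x.2 ≠ 0) (hx : M ≤ vv K u x) :
    1 / (vv K u x : ℝ) ^ b ≤ (1 / (M : ℝ) ^ (b - 2)) * ww x := by
  have hpos : (0 : ℝ) < (vv K u x : ℝ) := by
    have : 0 < vv K u x := by omega
    exact_mod_cast this
  have hMr : (0 : ℝ) < M := by exact_mod_cast hM
  have hle : (M : ℝ) ≤ (vv K u x : ℝ) := by exact_mod_cast hx
  have hx1' : 1 ≤ x.1 := Nat.one_le_iff_ne_zero.2 hx1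
  have hx2' : 1 ≤ x.2 := Nat.one_le_iff_ne_zero.2 hx2
  have hmn : x.1 * x.2 ≤ vv K u x := by
    unfold vv
    calc x.1 * x.2 = x.1 ^ 1 * x.2 ^ 1 := by rw [pow_one, pow_one]
      _ ≤ x.1 ^ u * x.2 ^ (K - u) :=
        Nat.mul_le_mul (Nat.pow_le_pow_right hx1' hu1) (Nat.pow_le_pow_right hx2' (by omega))
  have hx1r : (0 : ℝ) < x.1 := by exact_mod_cast hx1'
  have hx2r : (0 : ℝ) < x.2 := by exact_mod_cast hx2'
  have e1 : 1 / (vv K u x : ℝ) ^ 2 ≤ ww x := by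
    have h1 : ww x = 1 / ((x.1 : ℝ) * x.2) ^ 2 := by
      unfold ww
      rw [mul_pow]
      field_simp
    rw [h1]
    apply one_div_le_one_div_of_le (by positivity)
    apply pow_le_pow_left₀ (by positivity)
    exact_mod_cast hmn
  obtain ⟨e, rfl⟩ : ∃ e, b = e + 2 := ⟨b - 2, by omega⟩
  rw [Nat.add_sub_cancel]
  calc 1 / (vv K u x : ℝ) ^ (e + 2) = (1 / (vv K u x : ℝ) ^ e) * (1 / (vv K u x : ℝ) ^ 2) := by
        rw [pow_add, one_div_mul_one_div]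
    _ ≤ (1 / (M : ℝ) ^ e) * ww x := by
        apply mul_le_mul _ e1 (by positivity) (by positivity)
        apply one_div_le_one_div_of_le (by positivity)
        exact pow_le_pow_left₀ hMr.le hle e

theorem aa_zero (K b E : ℕ) (d : ℤ) (c : ℕ → ℕ → ℤ) (u : ℕ) (x : ℕ × ℕ) (h : x.1 = 0 ∨ x.2 = 0) :
    aa K b E d c u x = 0 := by
  unfold aa
  rw [if_pos h]

/-- the bound for a pair of value at least `M` -/
theorem aa_tail (K b E : ℕ) (hb : 2 ≤ b) (d : ℤ) (c : ℕ → ℕ → ℤ) (u : ℕ) (hu1 : 1 ≤ u) (hu : u < K)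
    (H : ℝ) (hH : 0 ≤ H) (hd : |(d : ℝ)| ≤ H) (hc : ∀ i ≤ E, |(c u i : ℝ)| ≤ H) (M : ℕ) (hM : 1 ≤ M)
    (x : ℕ × ℕ) (hx : x.1 ≠ 0 → x.2 ≠ 0 → M ≤ vv K u x) :
    |aa K b E d c u x| ≤ H * (E + 1) * (1 / (M : ℝ) ^ (b - 2)) * ww x := by
  by_cases h0 : x.1 = 0 ∨ x.2 = 0
  · rw [aa_zero _ _ _ _ _ _ _ h0, abs_zero]
    have := ww_nonneg x
    positivity
  · push Not at h0
    refine (aa_le K b E d c u hu H hH hd hc x).trans ?_
    have h2 := pow_ww K u b hu1 hu hb M hM x h0.1 h0.2 (hx h0.1 h0.2)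
    calc H * (E + 1) * (1 / (vv K u x : ℝ) ^ b)
        ≤ H * (E + 1) * ((1 / (M : ℝ) ^ (b - 2)) * ww x) :=
          mul_le_mul_of_nonneg_left h2 (by positivity)
      _ = _ := by ring

theorem vv_pos (K u : ℕ) (x : ℕ × ℕ) (h1 : x.1 ≠ 0) (h2 : x.2 ≠ 0) : 1 ≤ vv K u x := by
  unfold vv
  exact Nat.mul_pos (Nat.pow_pos (Nat.pos_of_ne_zero h1)) (Nat.pow_pos (Nat.pos_of_ne_zero h2))

theorem aa_summable (K b E : ℕ) (hb : 2 ≤ b) (d : ℤ) (c : ℕ → ℕ → ℤ) (u : ℕ) (hu1 : 1 ≤ u) (hu : u < K) :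
    Summable (aa K b E d c u) := by
  set H : ℝ := |(d : ℝ)| + ∑ i ∈ Finset.range (E + 1), |(c u i : ℝ)| with hH
  have hsum : 0 ≤ ∑ i ∈ Finset.range (E + 1), |(c u i : ℝ)| := Finset.sum_nonneg fun _ _ => abs_nonneg _
  have hd : |(d : ℝ)| ≤ H := by rw [hH]; linarith
  have hc : ∀ i ≤ E, |(c u i : ℝ)| ≤ H := by
    intro i hi
    have h1 := Finset.single_le_sum (f := fun i => |(c u i : ℝ)|) (fun _ _ => abs_nonneg _) (Finset.mem_range.2 (Nat.lt_succ_of_le hi))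
    have h2 := abs_nonneg (d : ℝ)
    rw [hH]
    have h3 : |(c u i : ℝ)| ≤ ∑ i ∈ Finset.range (E + 1), |(c u i : ℝ)| := h1
    linarith
  have hH0 : 0 ≤ H := (abs_nonneg _).trans hd
  apply Summable.of_norm_bounded (g := fun x => H * (E + 1) * (1 / ((1 : ℕ) : ℝ) ^ (b - 2)) * ww x) (ww_summable.mul_left _)
  intro x
  rw [Real.norm_eq_abs]
  exact aa_tail K b E hb d c u hu1 hu H hH0 hd hc 1 (le_refl _) x fun h1 h2 => vv_pos K u x h1 h2

/-- the linear form of one ray as a double series -/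
theorem form2 (K b E : ℕ) (hb : 3 ≤ b) (d : ℤ) (c : ℕ → ℕ → ℤ) (u : ℕ) (hu1 : 1 ≤ u) (hu : u < K) :
    (if u = 1 then (d : ℝ) else 0) * zt (K * b + E) +
      ∑ i ∈ Finset.range (E + 1), (c u i : ℝ) * dz (u * b + i) ((K - u) * b + E - i) =
      ∑' x, aa K b E d c u x := by
  have hub : 3 ≤ u * b := by nlinarith
  have hKb : 3 ≤ K * b := by nlinarith
  have h1 : HasSum (fun m : ℕ => (if u = 1 then (d : ℝ) else 0) * (1 / ((m + 1 : ℕ) : ℝ) ^ (K * b + E)))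
      ((if u = 1 then (d : ℝ) else 0) * zt (K * b + E)) :=
    (summable_zt (K * b + E) (by omega)).hasSum.mul_left _
  have h2 : HasSum (fun m : ℕ => ∑ i ∈ Finset.range (E + 1), (c u i : ℝ) *
      ((∑ n ∈ Finset.Ico 1 (m + 1), 1 / (n : ℝ) ^ ((K - u) * b + E - i)) / ((m + 1 : ℕ) : ℝ) ^ (u * b + i)))
      (∑ i ∈ Finset.range (E + 1), (c u i : ℝ) * dz (u * b + i) ((K - u) * b + E - i)) := by
    apply hasSum_sum
    intro i _
    exact (summable_dz (u * b + i) ((K - u) * b + E - i) (by omega)).hasSum.mul_left _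
  have h3 := h1.add h2
  have hs := aa_summable K b E (by omega) d c u hu1 hu
  rw [hs.tsum_prod, ← h3.tsum_eq]
  have hrow : ∀ m : ℕ, ∑' n : ℕ, aa K b E d c u (m + 1, n) =
      (if u = 1 then (d : ℝ) else 0) * (1 / ((m + 1 : ℕ) : ℝ) ^ (K * b + E)) +
      ∑ i ∈ Finset.range (E + 1), (c u i : ℝ) *
      ((∑ n ∈ Finset.Ico 1 (m + 1), 1 / (n : ℝ) ^ ((K - u) * b + E - i)) / ((m + 1 : ℕ) : ℝ) ^ (u * b + i)) := by
    intro m
    rw [tsum_eq_sum (s := Finset.Icc 1 (m + 1))]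
    · rw [← Finset.insert_Icc_right_eq_Icc_add_one (by omega), Finset.sum_insert (by simp)]
      congr 1
      · unfold aa
        rw [if_neg (by simp), if_neg (by simp)]
        by_cases hu' : u = 1
        · rw [if_pos ⟨rfl, hu'⟩, if_pos hu']
        · rw [if_neg (fun h => hu' h.2), if_neg hu', zero_mul]
      · have hI : Finset.Icc 1 m = Finset.Ico 1 (m + 1) := by
          ext x
          simp only [Finset.mem_Icc, Finset.mem_Ico]
          omega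
        rw [hI]
        have h4 : ∀ n ∈ Finset.Ico 1 (m + 1), aa K b E d c u (m + 1, n) = ∑ i ∈ Finset.range (E + 1),
            (c u i : ℝ) * (1 / ((n : ℝ) ^ ((K - u) * b + E - i)) / ((m + 1 : ℕ) : ℝ) ^ (u * b + i)) := by
          intro n hn
          rw [Finset.mem_Ico] at hn
          unfold aa
          rw [if_neg (by simp only; omega), if_pos (by simp only; omega)]
        rw [Finset.sum_congr rfl h4, Finset.sum_comm]
        refine Finset.sum_congr rfl fun i _ => ?_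
        rw [Finset.sum_div, Finset.mul_sum]
    · intro n hn
      rw [Finset.mem_Icc] at hn
      unfold aa
      rcases Nat.eq_zero_or_pos n with h0 | h0
      · rw [if_pos (Or.inr h0)]
      · rw [if_neg (by simp only; omega), if_neg (by simp only; omega), if_neg (by simp only; omega)]
  have hs2 : Summable fun m : ℕ => ∑' n : ℕ, aa K b E d c u (m, n) := hs.prod
  rw [hs2.tsum_eq_zero_add]
  have h0 : ∑' n : ℕ, aa K b E d c u (0, n) = 0 := by
    have : ∀ n : ℕ, aa K b E d c u (0, n) = 0 := fun n => aa_zero _ _ _ _ _ _ _ (Or.inl rfl)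
    simp only [this, tsum_zero]
  rw [h0, zero_add]
  exact tsum_congr fun m => (hrow m).symm

/-- the pairs of value `M` -/
def SS (K u M : ℕ) : Finset (ℕ × ℕ) :=
  ((Finset.Icc 1 M) ×ˢ (Finset.Icc 1 M)).filter fun x => vv K u x = M

theorem mem_SS (K u M : ℕ) (hu1 : 1 ≤ u) (hu : u < K) (x : ℕ × ℕ) :
    x ∈ SS K u M ↔ x.1 ≠ 0 ∧ x.2 ≠ 0 ∧ vv K u x = M := by
  unfold SS
  rw [Finset.mem_filter, Finset.mem_product, Finset.mem_Icc, Finset.mem_Icc]
  constructor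
  · rintro ⟨⟨h1, h2⟩, h3⟩
    exact ⟨by omega, by omega, h3⟩
  · rintro ⟨h1, h2, h3⟩
    have h1' : 1 ≤ x.1 := Nat.one_le_iff_ne_zero.2 h1
    have h2' : 1 ≤ x.2 := Nat.one_le_iff_ne_zero.2 h2
    have h4 : x.1 ≤ vv K u x := by
      unfold vv
      calc x.1 = x.1 ^ 1 * 1 := by rw [pow_one, mul_one]
        _ ≤ x.1 ^ u * x.2 ^ (K - u) :=
          Nat.mul_le_mul (Nat.pow_le_pow_right h1' hu1) (Nat.one_le_pow _ _ h2')
    have h5 : x.2 ≤ vv K u x := by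
      unfold vv
      calc x.2 = 1 * x.2 ^ 1 := by rw [pow_one, one_mul]
        _ ≤ x.1 ^ u * x.2 ^ (K - u) :=
          Nat.mul_le_mul (Nat.one_le_pow _ _ h1') (Nat.pow_le_pow_right h2' (by omega))
    rw [h3] at h4 h5
    exact ⟨⟨⟨h1', h4⟩, ⟨h2', h5⟩⟩, h3⟩

/-- the sum of the terms with `m ^ u n ^ (K - u) = M` -/
noncomputable def GM (K b E : ℕ) (d : ℤ) (c : ℕ → ℕ → ℤ) (M : ℕ) : ℝ :=
  ∑ u ∈ Finset.Ico 1 K, ∑ x ∈ SS K u M, aa K b E d c u x

theorem GM_ge (K b E : ℕ) (d : ℤ) (c : ℕ → ℕ → ℤ) (M : ℕ) (hM : 1 ≤ M) (h0 : GM K b E d c M ≠ 0) :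
    1 ≤ |GM K b E d c M| * (M : ℝ) ^ (b + E) := by
  have hint : ∃ z : ℤ, GM K b E d c M * (M : ℝ) ^ (b + E) = z := by
    have h1 : ∀ u ∈ Finset.Ico 1 K, ∀ x ∈ SS K u M, ∃ z : ℤ, aa K b E d c u x * (M : ℝ) ^ (b + E) = z := by
      intro u hu x hx
      rw [Finset.mem_Ico] at hu
      rw [mem_SS K u M hu.1 hu.2] at hx
      obtain ⟨hm, hn, hv⟩ := hx
      have hm0 : (x.1 : ℝ) ≠ 0 := by exact_mod_cast hm
      have hn0 : (x.2 : ℝ) ≠ 0 := by exact_mod_cast hn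
      have hMr : (M : ℝ) = (x.1 : ℝ) ^ u * (x.2 : ℝ) ^ (K - u) := by
        rw [← hv]
        unfold vv
        push_cast
        rfl
      have hMb : (M : ℝ) ^ b = (x.1 : ℝ) ^ (u * b) * (x.2 : ℝ) ^ ((K - u) * b) := by
        rw [hMr, mul_pow, ← pow_mul, ← pow_mul]
      obtain ⟨m', hm'⟩ : x.1 ∣ M := by
        rw [← hv]
        exact Dvd.dvd.mul_right (dvd_pow_self _ (by omega)) _
      obtain ⟨n', hn'⟩ : x.2 ∣ M := by
        rw [← hv]
        exact Dvd.dvd.mul_left (dvd_pow_self _ (by omega)) _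
      have hm'r : (M : ℝ) = (x.1 : ℝ) * m' := by exact_mod_cast hm'
      have hn'r : (M : ℝ) = (x.2 : ℝ) * n' := by exact_mod_cast hn'
      unfold aa
      rw [if_neg (by push Not; exact ⟨hm, hn⟩)]
      by_cases h2 : x.2 < x.1
      · rw [if_pos h2]
        refine ⟨∑ i ∈ Finset.range (E + 1), c u i * ((m' : ℤ) ^ i * (n' : ℤ) ^ (E - i)), ?_⟩
        rw [Finset.sum_mul]
        push_cast
        refine Finset.sum_congr rfl fun i hi => ?_
        have hi' : i ≤ E := by have := Finset.mem_range.1 hi; omega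
        have e1 : (M : ℝ) ^ (b + E) = (x.1 : ℝ) ^ (u * b) * (x.2 : ℝ) ^ ((K - u) * b) *
            (((x.1 : ℝ) * m') ^ i * ((x.2 : ℝ) * n') ^ (E - i)) := by
          rw [← hm'r, ← hn'r, ← pow_add, ← hMb, ← pow_add]
          congr 1
          omega
        have e2 : (x.2 : ℝ) ^ ((K - u) * b + E - i) = (x.2 : ℝ) ^ ((K - u) * b) * (x.2 : ℝ) ^ (E - i) := by
          rw [← pow_add]
          congr 1
          omega
        have e3 : (x.1 : ℝ) ^ (u * b + i) = (x.1 : ℝ) ^ (u * b) * (x.1 : ℝ) ^ i := pow_add _ _ _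
        rw [e1, e2, e3, mul_pow, mul_pow]
        field_simp
      · rw [if_neg h2]
        by_cases h3 : x.1 = x.2 ∧ u = 1
        · rw [if_pos h3]
          refine ⟨d * (m' : ℤ) ^ E, ?_⟩
          push_cast
          have e1 : (M : ℝ) ^ (b + E) = (x.1 : ℝ) ^ (K * b) * ((x.1 : ℝ) * m') ^ E := by
            rw [← hm'r, pow_add, hMb, ← h3.1, ← pow_add, ← add_mul]
            congr 3
            omega
          have e3 : (x.1 : ℝ) ^ (K * b + E) = (x.1 : ℝ) ^ (K * b) * (x.1 : ℝ) ^ E := pow_add _ _ _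
          rw [e1, e3, mul_pow]
          field_simp
        · rw [if_neg h3]
          exact ⟨0, by simp⟩
    choose! f hf using h1
    refine ⟨∑ u ∈ Finset.Ico 1 K, ∑ x ∈ SS K u M, f u x, ?_⟩
    rw [GM, Finset.sum_mul]
    push_cast
    refine Finset.sum_congr rfl fun u hu => ?_
    rw [Finset.sum_mul]
    exact Finset.sum_congr rfl fun x hx => hf u hu x hx
  obtain ⟨z, hz⟩ := hint
  have hMr : (0 : ℝ) < M := by exact_mod_cast hM
  have hP : (0 : ℝ) < (M : ℝ) ^ (b + E) := by positivity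
  have hz0 : z ≠ 0 := by
    intro h
    rw [h, Int.cast_zero] at hz
    exact (mul_ne_zero h0 hP.ne') hz
  have h3 : |GM K b E d c M| * (M : ℝ) ^ (b + E) = |(z : ℝ)| := by
    rw [← hz, abs_mul, abs_of_pos hP]
  rw [h3]
  exact_mod_cast Int.one_le_abs hz0

end Pool.Agent.W2helper67.DZ
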