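import Mathlib
import Pool.Agent.W2helper67.DZ.F

/-!
# Domination by the first nonzero term
-/

set_option autoImplicit false

namespace Pool.Agent.W2helper67.DZ

open Finset

/-- one ray: the series differs from the part with value at most `m0` by at most `4 K'` -/
theorem tail_u (K b E : ℕ) (hb : 3 ≤ b) (d : ℤ) (c : ℕ → ℕ → ℤ) (u : ℕ) (hu1 : 1 ≤ u) (hu : u < K)
    (H : ℝ) (hH : 0 ≤ H) (hd : |(d : ℝ)| ≤ H) (hc : ∀ i ≤ E, |(c u i : ℝ)| ≤ H) (m0 : ℕ) :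
    |(∑' x, aa K b E d c u x) - ∑ M ∈ Finset.Icc 1 m0, ∑ x ∈ SS K u M, aa K b E d c u x| ≤
      4 * (H * (E + 1) * (1 / ((m0 + 1 : ℕ) : ℝ) ^ (b - 2))) := by
  classical
  have hs := aa_summable K b E (by omega) d c u hu1 hu
  set A : Finset (ℕ × ℕ) := (Finset.Icc 1 m0).biUnion (SS K u) with hA
  have hAmem : ∀ x : ℕ × ℕ, x ∈ A ↔ x.1 ≠ 0 ∧ x.2 ≠ 0 ∧ vv K u x ≤ m0 := by
    intro x
    rw [hA, Finset.mem_biUnion]
    constructor
    · rintro ⟨M', hM', hx⟩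
      rw [Finset.mem_Icc] at hM'
      rw [mem_SS K u M' hu1 hu] at hx
      exact ⟨hx.1, hx.2.1, by omega⟩
    · rintro ⟨h1, h2, h3⟩
      exact ⟨vv K u x, Finset.mem_Icc.2 ⟨vv_pos K u x h1 h2, h3⟩, (mem_SS K u _ hu1 hu x).2 ⟨h1, h2, rfl⟩⟩
  have hAsum : ∑ x ∈ A, aa K b E d c u x = ∑ M ∈ Finset.Icc 1 m0, ∑ x ∈ SS K u M, aa K b E d c u x := by
    rw [hA, Finset.sum_biUnion]
    intro M1 _ M2 _ hne'
    rw [Function.onFun, Finset.disjoint_left]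
    intro x hx1 hx2
    rw [mem_SS K u _ hu1 hu] at hx1 hx2
    exact hne' (hx1.2.2.symm.trans hx2.2.2)
  rw [← hAsum]
  have hsplit := hs.sum_add_tsum_compl (s := A)
  set R : ℝ := ∑' x : ↑((A : Set (ℕ × ℕ))ᶜ), aa K b E d c u x with hR
  have hFeq : (∑' x, aa K b E d c u x) - ∑ x ∈ A, aa K b E d c u x = R := by
    rw [← hsplit]; ring
  rw [hFeq]
  set K' : ℝ := H * (E + 1) * (1 / ((m0 + 1 : ℕ) : ℝ) ^ (b - 2)) with hK
  have hKpos : 0 ≤ K' := by rw [hK]; positivity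
  have hterm : ∀ x : ↑((A : Set (ℕ × ℕ))ᶜ), |aa K b E d c u x| ≤ K' * ww x := by
    intro x
    have hx : (x : ℕ × ℕ) ∉ A := fun h => x.2 (Finset.mem_coe.2 h)
    rw [hAmem] at hx
    refine aa_tail K b E (by omega) d c u hu1 hu H hH hd hc (m0 + 1) (by omega) x fun h1 h2 => ?_
    by_contra h3
    exact hx ⟨h1, h2, by omega⟩
  have hsw : Summable fun x : ↑((A : Set (ℕ × ℕ))ᶜ) => ww x := ww_summable.subtype _
  have hsK := hsw.mul_left K'
  have hsabs : Summable fun x : ↑((A : Set (ℕ × ℕ))ᶜ) => |aa K b E d c u x| :=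
    Summable.of_nonneg_of_le (fun _ => abs_nonneg _) hterm hsK
  calc |R| ≤ ∑' x : ↑((A : Set (ℕ × ℕ))ᶜ), |aa K b E d c u x| := by
        have := norm_tsum_le_tsum_norm (f := fun x : ↑((A : Set (ℕ × ℕ))ᶜ) => aa K b E d c u x) (by simpa using hsabs)
        simpa using this
    _ ≤ ∑' x : ↑((A : Set (ℕ × ℕ))ᶜ), K' * ww x := hsabs.tsum_le_tsum hterm hsK
    _ = K' * ∑' x : ↑((A : Set (ℕ × ℕ))ᶜ), ww x := tsum_mul_left
    _ ≤ K' * 4 := by
        apply mul_le_mul_of_nonneg_left _ hKpos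
        refine le_trans ?_ ww_tsum
        have h1 := ww_summable.sum_add_tsum_compl (s := A)
        have h2 : 0 ≤ ∑ x ∈ A, ww x := Finset.sum_nonneg fun x _ => ww_nonneg x
        linarith
    _ = 4 * K' := by ring

/-- the linear form -/
noncomputable def FF (K b E : ℕ) (d : ℤ) (c : ℕ → ℕ → ℤ) : ℝ :=
  (d : ℝ) * zt (K * b + E) + ∑ u ∈ Finset.Ico 1 K, ∑ i ∈ Finset.range (E + 1),
    (c u i : ℝ) * dz (u * b + i) ((K - u) * b + E - i)

theorem FF_eq (K b E : ℕ) (hK : 2 ≤ K) (hb : 3 ≤ b) (d : ℤ) (c : ℕ → ℕ → ℤ) :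
    FF K b E d c = ∑ u ∈ Finset.Ico 1 K, ∑' x, aa K b E d c u x := by
  rw [← Finset.sum_congr rfl fun u hu => form2 K b E hb d c u (Finset.mem_Ico.1 hu).1 (Finset.mem_Ico.1 hu).2,
    Finset.sum_add_distrib]
  unfold FF
  congr 1
  rw [Finset.sum_eq_single 1]
  · rw [if_pos rfl]
  · intro u _ hu
    rw [if_neg hu, zero_mul]
  · intro h
    exact absurd (Finset.mem_Ico.2 ⟨le_refl _, by omega⟩) h

/-- domination by the first nonzero term -/
theorem mid_bound (K b E : ℕ) (hK : 2 ≤ K) (hb : 3 ≤ b) (d : ℤ) (c : ℕ → ℕ → ℤ) (H : ℝ) (M : ℕ) (hH : 1 ≤ H)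
    (hd : |(d : ℝ)| ≤ H) (hc : ∀ u, 1 ≤ u → u < K → ∀ i ≤ E, |(c u i : ℝ)| ≤ H)
    (m1 : ℕ) (hm1 : 1 ≤ m1) (hm1M : m1 + 1 ≤ M) (hne : GM K b E d c m1 ≠ 0)
    (hcond : Real.log (8 * (K * H * (E + 1))) + (E + 2) * Real.log M ≤ b / M) :
    ((M : ℝ) ^ b)⁻¹ ≤ |FF K b E d c| := by
  classical
  have hex : ∃ m : ℕ, 1 ≤ m ∧ GM K b E d c m ≠ 0 := ⟨m1, hm1, hne⟩
  set m0 := Nat.find hex with hm0def
  obtain ⟨hm01, hm0ne⟩ := Nat.find_spec hex
  have hm0min : ∀ m, 1 ≤ m → m < m0 → GM K b E d c m = 0 := by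
    intro m h1 h2
    by_contra h3
    exact Nat.find_min hex h2 ⟨h1, h3⟩
  have hm0M : m0 + 1 ≤ M := (Nat.succ_le_succ (Nat.find_min' hex ⟨hm1, hne⟩)).trans hm1M
  rw [FF_eq K b E hK hb d c]
  set F : ℝ := ∑ u ∈ Finset.Ico 1 K, ∑' x, aa K b E d c u x with hF
  set A : ℝ := ∑ u ∈ Finset.Ico 1 K, ∑ M ∈ Finset.Icc 1 m0, ∑ x ∈ SS K u M, aa K b E d c u x with hA
  have hAeq : A = GM K b E d c m0 := by
    rw [hA, Finset.sum_comm]
    rw [Finset.sum_eq_single m0]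
    · rfl
    · intro M' hM' hne'
      rw [Finset.mem_Icc] at hM'
      exact hm0min M' hM'.1 (by omega)
    · intro h
      exact absurd (Finset.mem_Icc.2 ⟨hm01, le_refl _⟩) h
  have hKr : (2 : ℝ) ≤ K := by exact_mod_cast hK
  have hKr0 : (0 : ℝ) < K := by linarith
  set K' : ℝ := K * H * (E + 1) * (1 / ((m0 + 1 : ℕ) : ℝ) ^ (b - 2)) with hK'
  have hKpos : 0 ≤ K' := by rw [hK']; positivity
  have hRle : |F - A| ≤ 4 * K' := by
    rw [hF, hA, ← Finset.sum_sub_distrib]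
    refine (Finset.abs_sum_le_sum_abs _ _).trans ?_
    refine (Finset.sum_le_sum fun u hu => tail_u K b E hb d c u (Finset.mem_Ico.1 hu).1 (Finset.mem_Ico.1 hu).2 H
      (by linarith) hd (hc u (Finset.mem_Ico.1 hu).1 (Finset.mem_Ico.1 hu).2) m0).trans ?_
    rw [Finset.sum_const, Nat.card_Ico, nsmul_eq_mul, hK']
    have h1 : (((K - 1 : ℕ) : ℕ) : ℝ) ≤ K := by exact_mod_cast Nat.sub_le _ _
    have h2 : 0 ≤ 4 * (H * (E + 1) * (1 / ((m0 + 1 : ℕ) : ℝ) ^ (b - 2))) := by positivity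
    calc (((K - 1 : ℕ) : ℕ) : ℝ) * (4 * (H * (E + 1) * (1 / ((m0 + 1 : ℕ) : ℝ) ^ (b - 2))))
        ≤ K * (4 * (H * (E + 1) * (1 / ((m0 + 1 : ℕ) : ℝ) ^ (b - 2)))) := mul_le_mul_of_nonneg_right h1 h2
      _ = _ := by ring
  have hm0r : (0 : ℝ) < m0 := by exact_mod_cast hm01
  have hq : (0 : ℝ) < ((m0 + 1 : ℕ) : ℝ) := by positivity
  -- numerical comparison
  have hg := GM_ge K b E d c m0 hm01 hm0ne
  have hMpos : (0 : ℝ) < M := by
    have : 0 < M := by omega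
    exact_mod_cast this
  have hMle : ((m0 + 1 : ℕ) : ℝ) ≤ M := by exact_mod_cast hm0M
  have hm0leM : (m0 : ℝ) ≤ M := by push_cast at hMle; linarith
  have hexp : (m0 : ℝ) ^ b * Real.exp (b / M) ≤ ((m0 + 1 : ℕ) : ℝ) ^ b := by
    have h1 : (m0 : ℝ) * Real.exp (1 / M) ≤ ((m0 + 1 : ℕ) : ℝ) := by
      have h2 : Real.exp (1 / M) ≤ Real.exp (1 / ((m0 + 1 : ℕ) : ℝ)) := by
        apply Real.exp_le_exp.2
        exact one_div_le_one_div_of_le (by positivity) hMle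
      have h3 : Real.exp (1 / ((m0 + 1 : ℕ) : ℝ)) ≤ ((m0 + 1 : ℕ) : ℝ) / m0 := by
        have h4 := Real.add_one_le_exp (-(1 / ((m0 + 1 : ℕ) : ℝ)))
        rw [Real.exp_neg] at h4
        have h5 : -(1 / ((m0 + 1 : ℕ) : ℝ)) + 1 = (m0 : ℝ) / ((m0 + 1 : ℕ) : ℝ) := by
          push_cast
          field_simp
          ring
        rw [h5] at h4
        have h6 := Real.exp_pos (1 / ((m0 + 1 : ℕ) : ℝ))
        rw [le_div_iff₀ hm0r]
        rw [div_le_iff₀ hq] at h4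
        have h7 : Real.exp (1 / ((m0 + 1 : ℕ) : ℝ)) * (m0 : ℝ) ≤
            Real.exp (1 / ((m0 + 1 : ℕ) : ℝ)) * ((Real.exp (1 / ((m0 + 1 : ℕ) : ℝ)))⁻¹ * ((m0 + 1 : ℕ) : ℝ)) :=
          mul_le_mul_of_nonneg_left h4 h6.le
        rw [← mul_assoc, mul_inv_cancel₀ h6.ne', one_mul] at h7
        exact h7
      calc (m0 : ℝ) * Real.exp (1 / M) ≤ m0 * (((m0 + 1 : ℕ) : ℝ) / m0) :=
            mul_le_mul_of_nonneg_left (h2.trans h3) hm0r.le
        _ = ((m0 + 1 : ℕ) : ℝ) := by field_simp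
    have h9 : Real.exp ((b : ℝ) / M) = Real.exp (1 / M) ^ b := by
      rw [← Real.exp_nat_mul]
      congr 1
      ring
    rw [h9, ← mul_pow]
    exact pow_le_pow_left₀ (by positivity) h1 b
  have hnum : 8 * (K * H * (E + 1)) * ((m0 + 1 : ℕ) : ℝ) ^ 2 * (m0 : ℝ) ^ (b + E) ≤ ((m0 + 1 : ℕ) : ℝ) ^ b := by
    have hA1 : 0 < 8 * (K * H * ((E : ℝ) + 1)) := by positivity
    have h10 : 8 * (K * H * (E + 1)) * ((m0 + 1 : ℕ) : ℝ) ^ 2 * (m0 : ℝ) ^ E ≤ Real.exp (b / M) := by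
      have h11 : ((m0 + 1 : ℕ) : ℝ) ^ 2 * (m0 : ℝ) ^ E ≤ Real.exp ((E + 2) * Real.log M) := by
        have h12 : Real.exp ((E + 2) * Real.log M) = (M : ℝ) ^ (E + 2) := by
          rw [mul_comm, Real.exp_mul, Real.exp_log hMpos]
          have : ((E : ℝ) + 2) = ((E + 2 : ℕ) : ℝ) := by push_cast; ring
          rw [this, Real.rpow_natCast]
        rw [h12, pow_add, mul_comm ((M : ℝ) ^ E)]
        exact mul_le_mul (pow_le_pow_left₀ hq.le hMle 2) (pow_le_pow_left₀ hm0r.le hm0leM E) (by positivity) (by positivity)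
      calc 8 * (K * H * (E + 1)) * ((m0 + 1 : ℕ) : ℝ) ^ 2 * (m0 : ℝ) ^ E
          = (8 * (K * H * (E + 1))) * (((m0 + 1 : ℕ) : ℝ) ^ 2 * (m0 : ℝ) ^ E) := by ring
        _ ≤ Real.exp (Real.log (8 * (K * H * (E + 1)))) * Real.exp ((E + 2) * Real.log M) := by
            rw [Real.exp_log hA1]
            exact mul_le_mul_of_nonneg_left h11 hA1.le
        _ = Real.exp (Real.log (8 * (K * H * (E + 1))) + (E + 2) * Real.log M) := by rw [Real.exp_add]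
        _ ≤ Real.exp (b / M) := Real.exp_le_exp.2 hcond
    calc 8 * (K * H * (E + 1)) * ((m0 + 1 : ℕ) : ℝ) ^ 2 * (m0 : ℝ) ^ (b + E)
        = (8 * (K * H * (E + 1)) * ((m0 + 1 : ℕ) : ℝ) ^ 2 * (m0 : ℝ) ^ E) * (m0 : ℝ) ^ b := by rw [pow_add]; ring
      _ ≤ Real.exp (b / M) * (m0 : ℝ) ^ b := mul_le_mul_of_nonneg_right h10 (by positivity)
      _ = (m0 : ℝ) ^ b * Real.exp (b / M) := by ring
      _ ≤ _ := hexp
  -- conclusion
  obtain ⟨e, he⟩ : ∃ e, b = e + 2 := ⟨b - 2, by omega⟩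
  have hb2 : b - 2 = e := by omega
  have hK8 : 8 * K' ≤ |GM K b E d c m0| := by
    have hP : (0 : ℝ) < (m0 : ℝ) ^ (b + E) := by positivity
    have h1 : 8 * K' * (m0 : ℝ) ^ (b + E) ≤ 1 := by
      rw [hK', hb2]
      have h2 : ((m0 + 1 : ℕ) : ℝ) ^ b = ((m0 + 1 : ℕ) : ℝ) ^ e * ((m0 + 1 : ℕ) : ℝ) ^ 2 := by rw [he, pow_add]
      rw [h2] at hnum
      have h3 : (0 : ℝ) < ((m0 + 1 : ℕ) : ℝ) ^ e := by positivity
      have h4 : (0 : ℝ) < ((m0 + 1 : ℕ) : ℝ) ^ 2 := by positivity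
      have h5 : 8 * (K * H * (E + 1) * (1 / ((m0 + 1 : ℕ) : ℝ) ^ e)) * (m0 : ℝ) ^ (b + E) =
          (8 * (K * H * (E + 1)) * (m0 : ℝ) ^ (b + E)) / ((m0 + 1 : ℕ) : ℝ) ^ e := by ring
      rw [h5, div_le_one h3]
      have h6 : (8 * (K * H * (E + 1)) * (m0 : ℝ) ^ (b + E)) * ((m0 + 1 : ℕ) : ℝ) ^ 2 ≤
          ((m0 + 1 : ℕ) : ℝ) ^ e * ((m0 + 1 : ℕ) : ℝ) ^ 2 := by
        calc (8 * (K * H * (E + 1)) * (m0 : ℝ) ^ (b + E)) * ((m0 + 1 : ℕ) : ℝ) ^ 2
            = 8 * (K * H * (E + 1)) * ((m0 + 1 : ℕ) : ℝ) ^ 2 * (m0 : ℝ) ^ (b + E) := by ring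
          _ ≤ _ := hnum
      exact le_of_mul_le_mul_right h6 h4
    have h7 : 0 ≤ 8 * K' := by linarith
    calc 8 * K' ≤ 8 * K' * (|GM K b E d c m0| * (m0 : ℝ) ^ (b + E)) := by nlinarith
      _ = |GM K b E d c m0| * (8 * K' * (m0 : ℝ) ^ (b + E)) := by ring
      _ ≤ |GM K b E d c m0| * 1 := mul_le_mul_of_nonneg_left h1 (abs_nonneg _)
      _ = _ := mul_one _
  have hlow : 4 * K' ≤ |F| := by
    have h1 := abs_sub_abs_le_abs_sub A F
    rw [abs_sub_comm] at h1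
    rw [hAeq] at h1 hRle
    linarith
  refine le_trans ?_ hlow
  have h1 : ((M : ℝ) ^ b)⁻¹ ≤ (((m0 + 1 : ℕ) : ℝ) ^ b)⁻¹ :=
    inv_anti₀ (by positivity) (pow_le_pow_left₀ hq.le hMle b)
  have h2 : (((m0 + 1 : ℕ) : ℝ) ^ b)⁻¹ ≤ 1 / ((m0 + 1 : ℕ) : ℝ) ^ (b - 2) := by
    rw [inv_eq_one_div]
    apply one_div_le_one_div_of_le (by positivity)
    exact pow_le_pow_right₀ (by push_cast; linarith [Nat.cast_nonneg (α := ℝ) m0]) (by omega)
  have h3 : 1 / ((m0 + 1 : ℕ) : ℝ) ^ (b - 2) ≤ 4 * K' := by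
    rw [hK']
    have h4 : (0 : ℝ) ≤ 1 / ((m0 + 1 : ℕ) : ℝ) ^ (b - 2) := by positivity
    have h5 : (1 : ℝ) ≤ K * H * (E + 1) := by
      have h6 : (0 : ℝ) ≤ E := Nat.cast_nonneg E
      have h7 : (1 : ℝ) ≤ K * H := by nlinarith
      nlinarith
    nlinarith
  linarith

/-- `GM 1 = d` -/
theorem GM_one (K b E : ℕ) (hK : 2 ≤ K) (d : ℤ) (c : ℕ → ℕ → ℤ) : GM K b E d c 1 = d := by
  have hSS : ∀ u ∈ Finset.Ico 1 K, SS K u 1 = {(1, 1)} := by
    intro u hu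
    rw [Finset.mem_Ico] at hu
    ext x
    rw [mem_SS K u 1 hu.1 hu.2, Finset.mem_singleton]
    constructor
    · rintro ⟨h1, h2, h3⟩
      unfold vv at h3
      have h4 : x.1 ^ u = 1 ∧ x.2 ^ (K - u) = 1 :=
        ⟨Nat.eq_one_of_mul_eq_one_right h3, Nat.eq_one_of_mul_eq_one_left h3⟩
      have h5 := (Nat.pow_eq_one.1 h4.1).resolve_right (by omega)
      have h6 := (Nat.pow_eq_one.1 h4.2).resolve_right (by omega)
      exact Prod.ext h5 h6
    · rintro rfl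
      refine ⟨one_ne_zero, one_ne_zero, ?_⟩
      unfold vv
      simp
  unfold GM
  have h1 : ∀ u ∈ Finset.Ico 1 K, ∑ x ∈ SS K u 1, aa K b E d c u x = if u = 1 then (d : ℝ) else 0 := by
    intro u hu
    rw [hSS u hu, Finset.sum_singleton]
    unfold aa
    simp only [one_ne_zero, or_self, if_false, lt_irrefl, true_and, Nat.cast_one, one_pow, div_one, mul_one]
  rw [Finset.sum_congr rfl h1, Finset.sum_ite_eq' , if_pos (Finset.mem_Ico.2 ⟨le_refl _, by omega⟩)]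

/-- `GM (p ^ u)` for the first ray `u` with a nonzero coefficient -/
theorem GM_prime (K b E : ℕ) (d : ℤ) (c : ℕ → ℕ → ℤ) (p : ℕ) (hp : p.Prime) (u : ℕ) (hu1 : 1 ≤ u) (hu : u < K)
    (hlow : ∀ u' < u, 1 ≤ u' → ∀ i ≤ E, c u' i = 0) :
    GM K b E d c (p ^ u) * (p : ℝ) ^ (u * b + E) = ∑ i ∈ Finset.range (E + 1), (c u i : ℝ) * (p : ℝ) ^ (E - i) := by
  have hp1 : 1 < p := hp.one_lt
  -- the form of the pairs
  have hform : ∀ u', 1 ≤ u' → u' < K → ∀ x ∈ SS K u' (p ^ u), ∃ a e : ℕ, x.1 = p ^ a ∧ x.2 = p ^ e ∧ a * u' + e * (K - u') = u := by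
    intro u' h1 h2 x hx
    rw [mem_SS K u' _ h1 h2] at hx
    obtain ⟨hx1, hx2, hv⟩ := hx
    unfold vv at hv
    have hd1 : x.1 ∣ p ^ u := by
      rw [← hv]
      exact Dvd.dvd.mul_right (dvd_pow_self _ (by omega)) _
    have hd2 : x.2 ∣ p ^ u := by
      rw [← hv]
      exact Dvd.dvd.mul_left (dvd_pow_self _ (by omega)) _
    obtain ⟨a, _, ha⟩ := (Nat.dvd_prime_pow hp).1 hd1
    obtain ⟨e, _, he⟩ := (Nat.dvd_prime_pow hp).1 hd2
    refine ⟨a, e, ha, he, ?_⟩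
    rw [ha, he, ← pow_mul, ← pow_mul, ← pow_add] at hv
    exact Nat.pow_right_injective hp1 hv
  have hzero : ∀ u' ∈ Finset.Ico 1 K, u' ≠ u → ∑ x ∈ SS K u' (p ^ u), aa K b E d c u' x = 0 := by
    intro u' hu' hne
    rw [Finset.mem_Ico] at hu'
    refine Finset.sum_eq_zero fun x hx => ?_
    obtain ⟨a, e, h1, h2, h3⟩ := hform u' hu'.1 hu'.2 x hx
    unfold aa
    have hx0 : ¬ (x.1 = 0 ∨ x.2 = 0) := by
      rw [h1, h2]
      push Not
      exact ⟨(Nat.pow_pos hp.pos).ne', (Nat.pow_pos hp.pos).ne'⟩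
    rw [if_neg hx0]
    by_cases hlt : x.2 < x.1
    · rw [if_pos hlt]
      rcases Nat.lt_or_ge u' u with h4 | h4
      · refine Finset.sum_eq_zero fun i hi => ?_
        rw [hlow u' h4 hu'.1 i (by have := Finset.mem_range.1 hi; omega), Int.cast_zero, zero_mul]
      · exfalso
        have h5 : u < u' := lt_of_le_of_ne h4 (Ne.symm hne)
        rw [h1, h2] at hlt
        have h6 : e < a := (Nat.pow_lt_pow_iff_right hp1).1 hlt
        have h7 : 1 ≤ a := by omega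
        nlinarith
    · rw [if_neg hlt, if_neg]
      rintro ⟨h4, h5⟩
      rw [h1, h2] at h4
      have h6 : a = e := Nat.pow_right_injective hp1 h4
      subst h6
      rw [h5] at h3
      have h7 : a * K = u := by
        obtain ⟨K', rfl⟩ : ∃ K', K = K' + 1 := ⟨K - 1, by omega⟩
        rw [Nat.add_sub_cancel] at h3
        rw [← h3]
        ring
      rcases Nat.eq_zero_or_pos a with h8 | h8
      · rw [h8, zero_mul] at h7
        omega
      · nlinarith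
  have hp0 : p ≠ 0 := hp.ne_zero
  have hpr : (p : ℝ) ≠ 0 := by exact_mod_cast hp0
  have hmem : (p, 1) ∈ SS K u (p ^ u) := by
    rw [mem_SS K u _ hu1 hu]
    refine ⟨hp.ne_zero, one_ne_zero, ?_⟩
    unfold vv
    simp
  have hmain : ∑ x ∈ SS K u (p ^ u), aa K b E d c u x = aa K b E d c u (p, 1) := by
    refine Finset.sum_eq_single_of_mem _ hmem fun x hx hxne => ?_
    obtain ⟨a, e, h1, h2, h3⟩ := hform u hu1 hu x hx
    unfold aa
    have hx0 : ¬ (x.1 = 0 ∨ x.2 = 0) := by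
      rw [h1, h2]
      push Not
      exact ⟨(Nat.pow_pos hp.pos).ne', (Nat.pow_pos hp.pos).ne'⟩
    rw [if_neg hx0]
    by_cases hlt : x.2 < x.1
    · exfalso
      rw [h1, h2] at hlt
      have h6 : e < a := (Nat.pow_lt_pow_iff_right hp1).1 hlt
      have h7 : a = 1 := by
        by_contra h8
        have h9 : 2 ≤ a := by omega
        nlinarith
      have h8 : e = 0 := by omega
      apply hxne
      rw [h7, pow_one] at h1
      rw [h8, pow_zero] at h2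
      exact Prod.ext h1 h2
    · rw [if_neg hlt, if_neg]
      rintro ⟨h4, h5⟩
      rw [h1, h2] at h4
      have h6 : a = e := Nat.pow_right_injective hp1 h4
      subst h6
      have h7 : a * K = u := by
        obtain ⟨K', hK'⟩ : ∃ K', K = u + K' := ⟨K - u, by omega⟩
        have h8 : K - u = K' := by omega
        rw [h8] at h3
        calc a * K = a * u + a * K' := by rw [hK']; ring
          _ = u := h3
      rcases Nat.eq_zero_or_pos a with h8 | h8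
      · rw [h8, zero_mul] at h7
        omega
      · nlinarith
  unfold GM
  rw [Finset.sum_eq_single_of_mem u (Finset.mem_Ico.2 ⟨hu1, hu⟩) hzero, hmain]
  unfold aa
  rw [if_neg (by simp only; omega), if_pos (by simp only; omega), Finset.sum_mul]
  refine Finset.sum_congr rfl fun i hi => ?_
  have hi' : i ≤ E := by have := Finset.mem_range.1 hi; omega
  have e1 : (p : ℝ) ^ (u * b + E) = (p : ℝ) ^ (u * b + i) * (p : ℝ) ^ (E - i) := by
    rw [← pow_add]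
    congr 1
    omega
  simp only [Nat.cast_one, one_pow]
  rw [e1]
  field_simp

end Pool.Agent.W2helper67.DZ
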