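import Mathlib
import Pool.Agent.W2helper67.DZ.G

/-!
# A small prime with a nonzero value, and the main theorem on rational rays
-/

set_option autoImplicit false

namespace Pool.Agent.W2helper67.DZ

open Finset

/-- (i) the bound by the size of the coefficients -/
theorem prime_h (n1 : ℕ) (hn1 : 16 ≤ n1) (hth : ∀ n : ℕ, n1 ≤ n →
    (n : ℝ) / 4 ≤ ∑ p ∈ (Finset.Ioc (n / 8) n).filter Nat.Prime, Real.log p)
    (E : ℕ) (c : ℕ → ℤ) (h : ℝ) (hh : 0 ≤ h) (hne : ∃ i ≤ E, c i ≠ 0) (hc : ∀ i ≤ E, |(c i : ℝ)| ≤ Real.exp h) :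
    ∃ p : ℕ, p.Prime ∧ ((p : ℝ) + 1) ≤ (n1 + 6) * (1 + h) ∧
      ∑ i ∈ Finset.range (E + 1), (c i : ℝ) * (p : ℝ) ^ (E - i) ≠ 0 := by
  classical
  set n : ℕ := ⌊4 * h⌋₊ + 1 + n1 with hn
  have hn4 : 4 * h < n := by
    have := Nat.lt_floor_add_one (4 * h)
    rw [hn]
    push_cast
    have h2 : (0 : ℝ) ≤ n1 := Nat.cast_nonneg _
    linarith
  have hnle : (n : ℝ) + 1 ≤ (n1 + 6) * (1 + h) := by
    have h1 := Nat.floor_le (show 0 ≤ 4 * h by positivity)
    rw [hn]
    push_cast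
    have h2 : (0 : ℝ) ≤ n1 := Nat.cast_nonneg _
    nlinarith
  by_contra hcon
  push Not at hcon
  have hz : ∀ p : ℕ, p.Prime → p ≤ n → ∑ i ∈ Finset.range (E + 1), (c i : ℤ) * (p : ℤ) ^ (E - i) = 0 := by
    intro p hp hpn
    have h1 : ((p : ℝ) + 1) ≤ (n1 + 6) * (1 + h) := by
      have : (p : ℝ) ≤ n := by exact_mod_cast hpn
      linarith
    have h2 := hcon p hp h1
    exact_mod_cast h2
  -- the top coefficient
  obtain ⟨i0, hi0, hci0⟩ := hne
  set e := Nat.findGreatest (fun i => c i ≠ 0) E with he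
  have hce : c e ≠ 0 := Nat.findGreatest_spec (P := fun i => c i ≠ 0) hi0 hci0
  have heE : e ≤ E := Nat.findGreatest_le E
  have htop : ∀ i, e < i → i ≤ E → c i = 0 := by
    intro i h1 h2
    by_contra h3
    exact absurd (Nat.le_findGreatest (P := fun i => c i ≠ 0) h2 h3) (by rw [← he]; omega)
  have hdvd : ∀ p : ℕ, p.Prime → p ≤ n → (p : ℤ) ∣ c e ∧ 1 ≤ e := by
    intro p hp hpn
    have h1 := hz p hp hpn
    have hpz : (p : ℤ) ≠ 0 := by exact_mod_cast hp.ne_zero
    have h2 : ∑ i ∈ Finset.range (E + 1), (c i : ℤ) * (p : ℤ) ^ (E - i) =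
        (p : ℤ) ^ (E - e) * ∑ i ∈ Finset.range (e + 1), (c i : ℤ) * (p : ℤ) ^ (e - i) := by
      rw [Finset.mul_sum]
      have hsub : Finset.range (e + 1) ⊆ Finset.range (E + 1) := Finset.range_subset_range.2 (by omega)
      rw [← Finset.sum_subset hsub]
      · refine Finset.sum_congr rfl fun i hi => ?_
        have hi' : i ≤ e := by have := Finset.mem_range.1 hi; omega
        have : (p : ℤ) ^ (E - i) = (p : ℤ) ^ (E - e) * (p : ℤ) ^ (e - i) := by
          rw [← pow_add]; congr 1; omega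
        rw [this]; ring
      · intro i hi1 hi2
        rw [Finset.mem_range] at hi1 hi2
        rw [htop i (by omega) (by omega), zero_mul]
    rw [h2] at h1
    have h3 := (mul_eq_zero.1 h1).resolve_left (pow_ne_zero _ hpz)
    rw [Finset.sum_range_succ, Nat.sub_self, pow_zero, mul_one] at h3
    have he1 : 1 ≤ e := by
      by_contra h4
      have h5 : e = 0 := by omega
      rw [h5, Finset.sum_range_zero, zero_add] at h3
      rw [h5] at hce
      exact hce h3
    refine ⟨?_, he1⟩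
    have h4 : c e = -∑ i ∈ Finset.range e, (c i : ℤ) * (p : ℤ) ^ (e - i) := by linarith
    rw [h4]
    refine (dvd_neg).2 (Finset.dvd_sum fun i hi => ?_)
    exact Dvd.dvd.mul_left (dvd_pow_self _ (by have := Finset.mem_range.1 hi; omega)) _
  -- the product of the primes divides
  set T := (Finset.Ioc (n / 8) n).filter Nat.Prime with hT
  have hprod : ((∏ p ∈ T, p : ℕ) : ℤ) ∣ c e := by
    push_cast
    refine Finset.prod_dvd_of_coprime ?_ ?_
    · intro p hp q hq hpq
      rw [Finset.mem_coe, hT, Finset.mem_filter] at hp hq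
      exact Nat.isCoprime_iff_coprime.2 ((Nat.coprime_primes hp.2 hq.2).2 hpq)
    · intro p hp
      rw [hT, Finset.mem_filter, Finset.mem_Ioc] at hp
      exact (hdvd p hp.2 hp.1.2).1
  have hle := Int.le_of_dvd (abs_pos.2 hce) ((dvd_abs _ _).2 hprod)
  have hle' : ((∏ p ∈ T, p : ℕ) : ℝ) ≤ |(c e : ℝ)| := by exact_mod_cast hle
  have hpos : ∀ p ∈ T, (0 : ℝ) < p := by
    intro p hp
    rw [hT, Finset.mem_filter] at hp
    exact_mod_cast hp.2.pos
  have hlog : Real.log ((∏ p ∈ T, p : ℕ) : ℝ) = ∑ p ∈ T, Real.log p := by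
    push_cast
    exact Real.log_prod fun p hp => (hpos p hp).ne'
  have h5 := hth n (by omega)
  have h6 : Real.log ((∏ p ∈ T, p : ℕ) : ℝ) ≤ h := by
    have hp0 : (0 : ℝ) < ((∏ p ∈ T, p : ℕ) : ℝ) := by
      push_cast
      exact Finset.prod_pos hpos
    rw [Real.log_le_iff_le_exp hp0]
    exact hle'.trans (hc e heE)
  rw [hlog] at h6
  linarith

/-- (ii) the bound by the number of coefficients -/
theorem prime_E (n1 : ℕ) (hn1 : 16 ≤ n1) (hth : ∀ n : ℕ, n1 ≤ n →
    (n : ℝ) / 4 ≤ ∑ p ∈ (Finset.Ioc (n / 8) n).filter Nat.Prime, Real.log p)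
    (E : ℕ) (c : ℕ → ℤ) (hne : ∃ i ≤ E, c i ≠ 0) :
    ∃ p : ℕ, p.Prime ∧ ((p : ℝ) + 1) ≤ (2 * 2 ^ (n1 + 6) + 1) * (1 + (E + 1) * Real.log (E + 2)) ∧
      ∑ i ∈ Finset.range (E + 1), (c i : ℝ) * (p : ℝ) ^ (E - i) ≠ 0 := by
  classical
  set A : ℝ := 2 ^ (n1 + 6) with hA
  set y : ℝ := (E + 1) * Real.log (E + 2) with hy
  have hEr : (0 : ℝ) ≤ E := Nat.cast_nonneg E
  have hl2 : (0.69 : ℝ) < Real.log 2 := by
    have := Real.log_two_gt_d9
    linarith
  have hlE : Real.log 2 ≤ Real.log (E + 2) := Real.log_le_log (by norm_num) (by linarith)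
  have hy0 : 0.69 < y := by
    rw [hy]
    nlinarith
  have hAn : 2 * (n1 : ℝ) + 64 ≤ A := by
    have h1 : n1 + 1 ≤ 2 ^ n1 := Nat.lt_two_pow_self
    have h2 : 2 * n1 + 64 ≤ 2 ^ (n1 + 6) := by
      rw [pow_add]
      norm_num
      omega
    rw [hA]
    exact_mod_cast h2
  have hn1r : (16 : ℝ) ≤ n1 := by exact_mod_cast hn1
  set n : ℕ := ⌈A * y⌉₊ with hn
  have hAy : 1 ≤ A * y := by nlinarith
  have hnge : A * y ≤ n := Nat.le_ceil _
  have hnlt : (n : ℝ) < A * y + 1 := Nat.ceil_lt_add_one (by linarith)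
  have hnn1 : n1 ≤ n := by
    have : (n1 : ℝ) ≤ n := by nlinarith
    exact_mod_cast this
  -- more than `E` primes up to `n`
  set T := (Finset.Ioc (n / 8) n).filter Nat.Prime with hT
  have hnpos : (0 : ℝ) < n := by linarith
  have hlogn : Real.log n ≤ (n1 + 9) * Real.log (E + 2) / Real.log 2 := by
    have h1 : (n : ℝ) ≤ 2 * A * y := by linarith
    have h2 : Real.log n ≤ Real.log (2 * A * y) := Real.log_le_log hnpos h1
    have h3 : Real.log (2 * A * y) = Real.log 2 + (n1 + 6) * Real.log 2 + Real.log y := by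
      rw [Real.log_mul (by positivity) (by linarith), Real.log_mul (by norm_num) (by positivity), hA, Real.log_pow]
      push_cast
      ring
    have h4 : Real.log y ≤ 2 * Real.log (E + 2) := by
      have h5 : y ≤ ((E : ℝ) + 2) ^ 2 := by
        rw [hy]
        have h6 : Real.log (E + 2) ≤ E + 2 := (Real.log_le_sub_one_of_pos (by linarith)).trans (by linarith)
        nlinarith
      calc Real.log y ≤ Real.log (((E : ℝ) + 2) ^ 2) := Real.log_le_log (by linarith) h5
        _ = 2 * Real.log (E + 2) := by rw [Real.log_pow]; push_cast; ring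
    have hl20 : 0 < Real.log 2 := by linarith
    rw [le_div_iff₀ hl20]
    have hl21 : Real.log 2 ≤ 1 := by
      have := Real.log_two_lt_d9
      linarith
    have h7 : Real.log n ≤ (n1 + 7) * Real.log 2 + 2 * Real.log (E + 2) := by linarith
    have h8 : ((n1 : ℝ) + 7) * Real.log 2 ≤ (n1 + 7) * Real.log (E + 2) := by nlinarith
    have hln0 : 0 ≤ Real.log n := Real.log_nonneg (by linarith)
    have h9 : Real.log n * Real.log 2 ≤ Real.log n := mul_le_of_le_one_right hln0 hl21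
    calc Real.log n * Real.log 2 ≤ Real.log n := h9
      _ ≤ (n1 + 7) * Real.log 2 + 2 * Real.log (E + 2) := h7
      _ ≤ (n1 + 7) * Real.log (E + 2) + 2 * Real.log (E + 2) := by linarith
      _ = (n1 + 9) * Real.log (E + 2) := by ring
  have hcard : E < T.card := by
    have h1 : ∑ p ∈ T, Real.log p ≤ T.card * Real.log n := by
      rw [← nsmul_eq_mul, ← Finset.sum_const]
      refine Finset.sum_le_sum fun p hp => ?_
      rw [hT, Finset.mem_filter, Finset.mem_Ioc] at hp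
      exact Real.log_le_log (by exact_mod_cast hp.2.pos) (by exact_mod_cast hp.1.2)
    have h2 := hth n hnn1
    have h3 : (n : ℝ) / 4 ≤ T.card * Real.log n := h2.trans h1
    by_contra hcon
    have hcE : (T.card : ℝ) ≤ E := by exact_mod_cast not_lt.1 hcon
    have hlogn0 : 0 ≤ Real.log n := Real.log_nonneg (by linarith)
    have h4 : (n : ℝ) / 4 ≤ E * ((n1 + 9) * Real.log (E + 2) / Real.log 2) :=
      h3.trans (mul_le_mul hcE hlogn hlogn0 hEr)
    have hl20 : 0 < Real.log 2 := by linarith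
    have h5 : E * ((n1 + 9) * Real.log (E + 2) / Real.log 2) ≤ E * ((n1 + 9) * Real.log (E + 2)) * (1 / 0.69) := by
      have : E * ((n1 + 9) * Real.log (E + 2) / Real.log 2) = E * ((n1 + 9) * Real.log (E + 2)) * (1 / Real.log 2) := by ring
      rw [this]
      have hl3 : 0 < Real.log ((E : ℝ) + 2) := by linarith
      exact mul_le_mul_of_nonneg_left (one_div_le_one_div_of_le (by norm_num) hl2.le) (by positivity)
    have hl3 : 0 < Real.log ((E : ℝ) + 2) := by linarith
    have hAbig : 8 * ((n1 : ℝ) + 9) ≤ A := by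
      have h8 : 8 * (n1 + 9) ≤ 2 ^ (n1 + 6) := by
        have h1 : n1 + 1 ≤ 2 ^ n1 := Nat.lt_two_pow_self
        rw [pow_add]
        norm_num
        omega
      rw [hA]
      exact_mod_cast h8
    have h6 : A * y ≤ 4 * (E * ((n1 + 9) * Real.log (E + 2)) * (1 / 0.69)) := by linarith
    have h7 : (E : ℝ) * ((n1 + 9) * Real.log (E + 2)) ≤ (A / 8) * y := by
      rw [hy]
      have h9 : ((n1 : ℝ) + 9) ≤ A / 8 := by linarith
      calc (E : ℝ) * ((n1 + 9) * Real.log (E + 2)) = (n1 + 9) * (E * Real.log (E + 2)) := by ring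
        _ ≤ (A / 8) * (E * Real.log (E + 2)) := mul_le_mul_of_nonneg_right h9 (by positivity)
        _ ≤ (A / 8) * ((E + 1) * Real.log (E + 2)) := by
            apply mul_le_mul_of_nonneg_left _ (by positivity)
            nlinarith
    nlinarith
  by_contra hcon
  push Not at hcon
  have hz : ∀ p ∈ T, ∑ i ∈ Finset.range (E + 1), (c i : ℝ) * (p : ℝ) ^ (E - i) = 0 := by
    intro p hp
    rw [hT, Finset.mem_filter, Finset.mem_Ioc] at hp
    refine hcon p hp.2 ?_
    have : (p : ℝ) ≤ n := by exact_mod_cast hp.1.2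
    nlinarith
  -- the polynomial
  set Q : Polynomial ℝ := ∑ i ∈ Finset.range (E + 1), Polynomial.C (c i : ℝ) * Polynomial.X ^ (E - i) with hQ
  have hQdeg : Q.natDegree ≤ E := by
    rw [hQ]
    refine Polynomial.natDegree_sum_le_of_forall_le _ _ fun i _ => ?_
    exact (Polynomial.natDegree_C_mul_X_pow_le _ _).trans (Nat.sub_le _ _)
  have hQ0 : Q = 0 := by
    refine Polynomial.eq_zero_of_natDegree_lt_card_of_eval_eq_zero' Q (T.image (fun p : ℕ => (p : ℝ))) ?_ ?_
    · intro x hx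
      obtain ⟨p, hp, rfl⟩ := Finset.mem_image.1 hx
      rw [hQ, Polynomial.eval_finsetSum, ← hz p hp]
      refine Finset.sum_congr rfl fun i _ => ?_
      simp
    · rw [Finset.card_image_of_injective _ Nat.cast_injective]
      omega
  obtain ⟨i0, hi0, hci0⟩ := hne
  have hcoef : Q.coeff (E - i0) = c i0 := by
    rw [hQ, Polynomial.finsetSum_coeff, Finset.sum_eq_single i0]
    · simp
    · intro j hj hji
      rw [Finset.mem_range] at hj
      rw [Polynomial.coeff_C_mul_X_pow, if_neg (by omega)]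
    · intro h
      exact absurd (Finset.mem_range.2 (by omega)) h
  rw [hQ0, Polynomial.coeff_zero] at hcoef
  exact hci0 (by exact_mod_cast hcoef.symm)

/-- both bounds together -/
theorem prime_both : ∃ A : ℝ, 2 ≤ A ∧ ∀ (E : ℕ) (c : ℕ → ℤ) (h : ℝ), 0 ≤ h → (∃ i ≤ E, c i ≠ 0) →
    (∀ i ≤ E, |(c i : ℝ)| ≤ Real.exp h) →
    ∃ p : ℕ, p.Prime ∧ ((p : ℝ) + 1) ≤ A * (1 + min h ((E + 1) * Real.log (E + 2))) ∧
      ∑ i ∈ Finset.range (E + 1), (c i : ℝ) * (p : ℝ) ^ (E - i) ≠ 0 := by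
  obtain ⟨n1, hn1, hth⟩ := theta_window
  have hn1r : (16 : ℝ) ≤ n1 := by exact_mod_cast hn1
  refine ⟨max (n1 + 6) (2 * 2 ^ (n1 + 6) + 1), le_trans (by linarith) (le_max_left _ _), fun E c h hh hne hc => ?_⟩
  have hEr : (0 : ℝ) ≤ E := Nat.cast_nonneg E
  have hlE : 0 ≤ Real.log ((E : ℝ) + 2) := Real.log_nonneg (by linarith)
  rcases le_total h ((E + 1) * Real.log (E + 2)) with h1 | h1
  · obtain ⟨p, hp, h2, h3⟩ := prime_h n1 hn1 hth E c h hh hne hc
    refine ⟨p, hp, ?_, h3⟩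
    rw [min_eq_left h1]
    exact h2.trans (mul_le_mul_of_nonneg_right (le_max_left _ _) (by linarith))
  · obtain ⟨p, hp, h2, h3⟩ := prime_E n1 hn1 hth E c hne
    refine ⟨p, hp, ?_, h3⟩
    rw [min_eq_right h1]
    exact h2.trans (mul_le_mul_of_nonneg_right (le_max_right _ _) (by positivity))

/-- **Main theorem on rational rays.** -/
theorem rays (K : ℕ) (hK : 2 ≤ K) : ∃ κ : ℝ, 0 < κ ∧ ∀ (b E : ℕ) (h w : ℝ), 0 ≤ h →
    w = 1 + min h ((E + 1) * Real.log (E + 2)) →
    w ^ (K - 1) * (h + (E + 1) * Real.log (1 + w)) ≤ κ * b → ∀ (d : ℤ) (c : ℕ → ℕ → ℤ),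
    (d ≠ 0 ∨ ∃ u i : ℕ, 1 ≤ u ∧ u < K ∧ i ≤ E ∧ c u i ≠ 0) → |(d : ℝ)| ≤ Real.exp h →
    (∀ u i : ℕ, 1 ≤ u → u < K → i ≤ E → |(c u i : ℝ)| ≤ Real.exp h) →
    ((κ⁻¹ * w) ^ ((K - 1) * b))⁻¹ ≤ |FF K b E d c| := by
  classical
  obtain ⟨A, hA2, hA⟩ := prime_both
  have hKr : (2 : ℝ) ≤ K := by exact_mod_cast hK
  have hlogA : 0 ≤ Real.log A := Real.log_nonneg (by linarith)
  have hlog8K : 0 ≤ Real.log (8 * K) := Real.log_nonneg (by linarith)
  set C : ℝ := 3 + 2 * Real.log (8 * K) + 2 * (K - 1) * (2 * Real.log A + 1) with hC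
  have hC1 : 1 ≤ C := by
    have : 0 ≤ 2 * ((K : ℝ) - 1) * (2 * Real.log A + 1) := by
      apply mul_nonneg <;> linarith
    rw [hC]
    linarith
  have hAK : A ≤ A ^ (K - 1) := le_self_pow₀ (by linarith) (by omega)
  have hAK1 : 1 ≤ A ^ (K - 1) := by linarith
  refine ⟨(6 * A ^ (K - 1) * C)⁻¹, by positivity, fun b E h w hh hw hcond d c hne hd hc => ?_⟩
  rw [inv_inv]
  have hEr : (0 : ℝ) ≤ E := Nat.cast_nonneg E
  have hlE : 0 ≤ Real.log ((E : ℝ) + 2) := Real.log_nonneg (by linarith)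
  have hmin0 : 0 ≤ min h ((E + 1) * Real.log ((E : ℝ) + 2)) := le_min hh (by positivity)
  have hw1 : 1 ≤ w := by rw [hw]; linarith
  have hl2 : (0.69 : ℝ) < Real.log 2 := by
    have := Real.log_two_gt_d9
    linarith
  have hlw : 0.69 < Real.log (1 + w) := hl2.trans_le (Real.log_le_log (by norm_num) (by linarith))
  have hAw : 2 ≤ A * w := by nlinarith
  -- a nonzero term
  obtain ⟨m1, hm1, hm1ne, hm1le⟩ : ∃ m1 : ℕ, 1 ≤ m1 ∧ GM K b E d c m1 ≠ 0 ∧ ((m1 : ℝ) + 1) ≤ (A * w) ^ (K - 1) := by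
    by_cases hex : ∃ u : ℕ, 1 ≤ u ∧ u < K ∧ ∃ i ≤ E, c u i ≠ 0
    · obtain ⟨hu1, huK, hui⟩ := Nat.find_spec hex
      set u := Nat.find hex with hu
      have hlow : ∀ u' < u, 1 ≤ u' → ∀ i ≤ E, c u' i = 0 := by
        intro u' h1 h2 i h3
        by_contra h4
        exact Nat.find_min hex h1 ⟨h2, by omega, i, h3, h4⟩
      obtain ⟨p, hp, hpA, hpne⟩ := hA E (c u) h hh hui (fun i hi => hc u i hu1 huK hi)
      rw [← hw] at hpA
      refine ⟨p ^ u, Nat.pow_pos hp.pos, ?_, ?_⟩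
      · intro h0
        have h1 := GM_prime K b E d c p hp u hu1 huK hlow
        rw [h0, zero_mul] at h1
        exact hpne h1.symm
      · have hp0 : (0 : ℝ) ≤ p := Nat.cast_nonneg p
        have h1 : ((p ^ u : ℕ) : ℝ) + 1 ≤ ((p : ℝ) + 1) ^ u := by
          have h2 : p ^ u + 1 ^ u ≤ (p + 1) ^ u := by
            exact pow_add_pow_le (Nat.zero_le _) (Nat.zero_le _) (by omega)
          rw [one_pow] at h2
          exact_mod_cast h2
        calc ((p ^ u : ℕ) : ℝ) + 1 ≤ ((p : ℝ) + 1) ^ u := h1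
          _ ≤ (A * w) ^ u := pow_le_pow_left₀ (by linarith) hpA u
          _ ≤ (A * w) ^ (K - 1) := pow_le_pow_right₀ (by linarith) (by omega)
    · push Not at hex
      have hd0 : d ≠ 0 := by
        rcases hne with h1 | ⟨u, i, h1, h2, h3, h4⟩
        · exact h1
        · exact absurd (hex u h1 h2 i h3) h4
      refine ⟨1, le_refl _, ?_, ?_⟩
      · rw [GM_one K b E hK d c]
        exact_mod_cast hd0
      · have h1 : A * w ≤ (A * w) ^ (K - 1) := le_self_pow₀ (by linarith) (by omega)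
        norm_num
        linarith
  set M : ℕ := m1 + 1 with hM
  have hMr : (M : ℝ) = (m1 : ℝ) + 1 := by rw [hM]; push_cast; ring
  have hMle : (M : ℝ) ≤ (A * w) ^ (K - 1) := by rw [hMr]; exact hm1le
  have hMpos : (0 : ℝ) < M := by rw [hMr]; positivity
  have hY : 0.69 ≤ h + (E + 1) * Real.log (1 + w) := by nlinarith
  have hwK : 1 ≤ w ^ (K - 1) := one_le_pow₀ hw1
  -- the main inequality
  have hcond2 : 6 * A ^ (K - 1) * C * (w ^ (K - 1) * (h + (E + 1) * Real.log (1 + w))) ≤ b := by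
    have h0 : 0 < 6 * A ^ (K - 1) * C := by positivity
    rw [inv_mul_eq_div, le_div_iff₀ h0] at hcond
    linarith
  have hb3 : 3 ≤ b := by
    have h1 : (1 : ℝ) ≤ A ^ (K - 1) * C := by nlinarith
    have h2 : 0.69 ≤ w ^ (K - 1) * (h + (E + 1) * Real.log (1 + w)) := by nlinarith
    have h3 : (2 : ℝ) < b := by nlinarith
    have h4 : 2 < b := by exact_mod_cast h3
    omega
  have hlogM : Real.log M ≤ (K - 1) * (2 * Real.log A + 1) * Real.log (1 + w) * 1 := by
    have h1 : Real.log M ≤ Real.log ((A * w) ^ (K - 1)) := Real.log_le_log hMpos hMle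
    rw [Real.log_pow, Real.log_mul (by linarith) (by linarith), Nat.cast_sub (by omega), Nat.cast_one] at h1
    have h2 : Real.log w ≤ Real.log (1 + w) := Real.log_le_log (by linarith) (by linarith)
    have h3 : Real.log A ≤ 2 * Real.log A * Real.log (1 + w) := by nlinarith
    have h4 : Real.log A + Real.log w ≤ (2 * Real.log A + 1) * Real.log (1 + w) := by linarith
    have h5 : (0 : ℝ) ≤ K - 1 := by linarith
    calc Real.log M ≤ (K - 1) * (Real.log A + Real.log w) := h1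
      _ ≤ (K - 1) * ((2 * Real.log A + 1) * Real.log (1 + w)) := mul_le_mul_of_nonneg_left h4 h5
      _ = _ := by ring
  have hlog8 : Real.log (8 * (K * Real.exp h * (E + 1))) ≤ Real.log (8 * K) + h + E := by
    have e1 : 8 * ((K : ℝ) * Real.exp h * (E + 1)) = (8 * K) * Real.exp h * (E + 1) := by ring
    rw [e1, Real.log_mul (by positivity) (by positivity), Real.log_mul (by positivity) (by positivity), Real.log_exp]
    have h1 : Real.log ((E : ℝ) + 1) ≤ E := (Real.log_le_sub_one_of_pos (by linarith)).trans (by linarith)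
    linarith
  have hLHS : Real.log (8 * (K * Real.exp h * (E + 1))) + (E + 2) * Real.log M ≤
      C * (h + (E + 1) * Real.log (1 + w)) := by
    set l := Real.log (1 + w) with hl
    have hK1 : (0 : ℝ) ≤ (K - 1) * (2 * Real.log A + 1) := by
      apply mul_nonneg <;> linarith
    set D : ℝ := (K - 1) * (2 * Real.log A + 1) with hD
    have hCD : C = 3 + 2 * Real.log (8 * K) + 2 * D := by rw [hC, hD]; ring
    have h1 : (E + 2) * Real.log M ≤ 2 * (E + 1) * (D * l) := by
      have h2 : Real.log M ≤ D * l := by linarith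
      have h3 : 0 ≤ D * l := by apply mul_nonneg hK1; linarith
      calc (E + 2) * Real.log M ≤ (E + 2) * (D * l) := mul_le_mul_of_nonneg_left h2 (by linarith)
        _ ≤ 2 * (E + 1) * (D * l) := mul_le_mul_of_nonneg_right (by linarith) h3
    have h4 : Real.log (8 * K) ≤ 2 * Real.log (8 * K) * ((E + 1) * l) := by
      have h5 : (1 : ℝ) ≤ 2 * ((E + 1) * l) := by nlinarith
      nlinarith
    have h6 : (E : ℝ) ≤ 2 * ((E + 1) * l) := by nlinarith
    have h7 : 0 ≤ (C - 1) * h := by apply mul_nonneg <;> linarith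
    rw [hCD] at h7 ⊢
    nlinarith
  have hC0 : 0 ≤ C * (h + (E + 1) * Real.log (1 + w)) := by
    apply mul_nonneg <;> linarith
  have hfinal : Real.log (8 * (K * Real.exp h * (E + 1))) + (E + 2) * Real.log M ≤ b / M := by
    rw [le_div_iff₀ hMpos]
    calc (Real.log (8 * (K * Real.exp h * (E + 1))) + (E + 2) * Real.log M) * M
        ≤ (C * (h + (E + 1) * Real.log (1 + w))) * M := mul_le_mul_of_nonneg_right hLHS hMpos.le
      _ ≤ (C * (h + (E + 1) * Real.log (1 + w))) * (A * w) ^ (K - 1) := mul_le_mul_of_nonneg_left hMle hC0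
      _ = A ^ (K - 1) * C * (w ^ (K - 1) * (h + (E + 1) * Real.log (1 + w))) := by rw [mul_pow]; ring
      _ ≤ 6 * A ^ (K - 1) * C * (w ^ (K - 1) * (h + (E + 1) * Real.log (1 + w))) := by
          have h1 : 0 ≤ A ^ (K - 1) * C * (w ^ (K - 1) * (h + (E + 1) * Real.log (1 + w))) := by positivity
          linarith
      _ ≤ b := hcond2
  have hmain := mid_bound K b E hK hb3 d c (Real.exp h) M (Real.one_le_exp hh) hd
    (fun u h1 h2 i h3 => hc u i h1 h2 h3) m1 hm1 (le_refl _) hm1ne hfinal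
  refine le_trans ?_ hmain
  apply inv_anti₀ (by positivity)
  rw [pow_mul]
  apply pow_le_pow_left₀ hMpos.le
  refine hMle.trans (pow_le_pow_left₀ (by positivity) ?_ _)
  have h1 : A ≤ 6 * A ^ (K - 1) * C := by nlinarith
  exact mul_le_mul_of_nonneg_right h1 (by linarith)

end Pool.Agent.W2helper67.DZ
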